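import Mathlib

open MeasureTheory ProbabilityTheory
open scoped ENNReal unitInterval

/-!
# Markov chains and PCTL: syntax and semantics
-/

namespace Pool.Agent.LibPCTL

/-- The five comparisons allowed in a probabilistic operator. -/
inductive Cmp where
  | lt | le | eq | ge | gt

/-- `c.Holds x r` is the comparison of `x` with `r`. -/
def Cmp.Holds : Cmp → ℝ → ℝ → Prop
  | .lt, x, r => x < r
  | .le, x, r => x ≤ r
  | .eq, x, r => x = r
  | .ge, x, r => x ≥ r
  | .gt, x, r => x > r

/-- PCTL state formulas with probability constants taken from `R`. The constructors are: atomic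
propositions, negation, conjunction, and the probabilistic operator applied to the path formulas
`X Φ`, `Φ U Ψ` and `Φ U^{≤ k} Ψ`. -/
inductive PCTL (R : Type) where
  | atom (a : ℕ)
  | neg (Φ : PCTL R)
  | and (Φ Ψ : PCTL R)
  | probNext (c : Cmp) (r : R) (Φ : PCTL R)
  | probUntil (c : Cmp) (r : R) (Φ Ψ : PCTL R)
  | probUntilLe (c : Cmp) (r : R) (k : ℕ) (Φ Ψ : PCTL R)

/-- Apply a function to all probability constants of a formula. -/
def PCTL.map {R R' : Type} (f : R → R') : PCTL R → PCTL R'
  | .atom a => .atom a
  | .neg Φ => .neg (Φ.map f)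
  | .and Φ Ψ => .and (Φ.map f) (Ψ.map f)
  | .probNext c r Φ => .probNext c (f r) (Φ.map f)
  | .probUntil c r Φ Ψ => .probUntil c (f r) (Φ.map f) (Ψ.map f)
  | .probUntilLe c r k Φ Ψ => .probUntilLe c (f r) k (Φ.map f) (Ψ.map f)

/-- A parameterized PCTL formula: a probability constant is either `some r` with `r ∈ [0,1]`, or
`none`, which stands for the parameter `p`. -/
abbrev ParamPCTL : Type := PCTL (Option unitInterval)

/-- Substitute `κ` for every occurrence of the parameter. -/
def ParamPCTL.subst (φ : ParamPCTL) (κ : unitInterval) : PCTL unitInterval :=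
  PCTL.map (fun r => r.getD κ) φ

/-- A Markov chain: a nonempty countable set `S` of states, transition probabilities `P s t`
that sum to one over `t`, and for each state `s` the set `v s` of its atomic propositions. -/
structure MarkovChain where
  /-- the set of states -/
  S : Type
  countable : Countable S
  nonempty : Nonempty S
  /-- the transition probabilities -/
  P : S → S → ℝ
  nonneg : ∀ s t, 0 ≤ P s t
  hasSum : ∀ s, HasSum (P s) 1
  /-- the atomic propositions that hold in a state -/
  v : S → Set ℕ

namespace MarkovChain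

variable (M : MarkovChain)

instance : Countable M.S := M.countable
instance : Nonempty M.S := M.nonempty
instance : MeasurableSpace M.S := ⊤
instance : DiscreteMeasurableSpace M.S := ⟨fun _ => trivial⟩

/-- The distribution of the next state. -/
noncomputable def step (s : M.S) : PMF M.S :=
  ⟨fun t => ENNReal.ofReal (M.P s t), by
    have h := M.hasSum s
    have h1 : ∑' t, ENNReal.ofReal (M.P s t) = 1 := by
      rw [← ENNReal.ofReal_tsum_of_nonneg (M.nonneg s) h.summable, h.tsum_eq, ENNReal.ofReal_one]
    rw [← h1]
    exact ENNReal.summable.hasSum⟩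

/-- The transition kernel from a finite history to the next state. -/
noncomputable def kernel (n : ℕ) : Kernel (Π _ : Finset.Iic n, M.S) M.S where
  toFun h := (M.step (h ⟨n, Finset.mem_Iic.2 le_rfl⟩)).toMeasure
  measurable' := by
    have h1 : Measurable (fun s : M.S => (M.step s).toMeasure) := measurable_of_countable _
    exact h1.comp (measurable_pi_apply _)

instance (n : ℕ) : IsMarkovKernel (M.kernel n) := ⟨fun h => by
  change IsProbabilityMeasure (M.step _).toMeasure
  infer_instance⟩

/-- The probability measure on the set of runs that start in the state `s`. -/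
noncomputable def runMeasure (s : M.S) : Measure (ℕ → M.S) :=
  Kernel.traj (X := fun _ => M.S) M.kernel 0 (fun _ => s)

instance (s : M.S) : IsProbabilityMeasure (M.runMeasure s) := by
  unfold runMeasure; infer_instance

/-- The set of states of `M` that satisfy a PCTL state formula; `P_{⋈ r}(ψ)` holds in `s` if the
probability of the set of runs from `s` that satisfy `ψ` is `⋈ r`. -/
def sat (M : MarkovChain) : PCTL unitInterval → Set M.S
  | .atom a => {s | a ∈ M.v s}
  | .neg Φ => {s | ¬ s ∈ M.sat Φ}
  | .and Φ Ψ => {s | s ∈ M.sat Φ ∧ s ∈ M.sat Ψ}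
  | .probNext c r Φ =>
      {s | c.Holds ((M.runMeasure s).real {ω | ω 1 ∈ M.sat Φ}) r}
  | .probUntil c r Φ Ψ =>
      {s | c.Holds ((M.runMeasure s).real
        {ω | ∃ j, ω j ∈ M.sat Ψ ∧ ∀ i < j, ω i ∈ M.sat Φ}) r}
  | .probUntilLe c r k Φ Ψ =>
      {s | c.Holds ((M.runMeasure s).real
        {ω | ∃ j ≤ k, ω j ∈ M.sat Ψ ∧ ∀ i < j, ω i ∈ M.sat Φ}) r}

/-- `M` is a model of `Φ`: some state of `M` satisfies `Φ`. -/
def IsModel (M : MarkovChain) (Φ : PCTL unitInterval) : Prop := (M.sat Φ).Nonempty

end MarkovChain
end Pool.Agent.LibPCTL
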