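import Pool.Agent.LibPCTL.Defs

/-!
# Parameterized PCTL formulas with rational constants
-/

namespace Pool.Agent.LibPCTL

/-- A parameterized PCTL formula with rational constants: a probability constant is either `some r`
with `r` a rational number in `[0,1]`, or `none`, which stands for the parameter `p`. -/
abbrev RatParamPCTL : Type := PCTL (Option (Set.Icc (0 : ℚ) 1))

/-- A rational number of `[0,1]` as a real number of `[0,1]`. -/
noncomputable def toUnit (q : Set.Icc (0 : ℚ) 1) : unitInterval :=
  ⟨((q : ℚ) : ℝ), by exact_mod_cast q.2.1, by exact_mod_cast q.2.2⟩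

/-- The PCTL formula `φ(κ)`: the rational number `κ` is substituted for every occurrence of the
parameter. -/
noncomputable def RatParamPCTL.subst (φ : RatParamPCTL) (κ : Set.Icc (0 : ℚ) 1) :
    PCTL unitInterval :=
  PCTL.map (fun r => toUnit (r.getD κ)) φ

end Pool.Agent.LibPCTL
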