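import Pool.Agent.LibPCTL.LargeModels
import Pool.Agent.LibPCTL.RatDefs

open MeasureTheory ProbabilityTheory
open scoped ENNReal unitInterval

/-!
# The exact number of states that the formula forces
-/

namespace Pool.Agent.LibPCTL

namespace MarkovChain

variable (M : MarkovChain)

lemma exists_of_next_pos {s : M.S} {N : Set M.S} (h : 0 < M.pr s (M.nextSet N)) :
    ∃ t ∈ N, 0 < M.P s t := by
  obtain ⟨t, ht⟩ := exists_pos_of_hasSum (M.wt_nonneg s N) (M.hasSum_wt s N) h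
  exact ⟨t, M.wt_pos ht⟩

/-- One step along the curve from a level state of even type. -/
lemma step_curve0 {p Y : ℝ} {s : M.S} (hs : s ∈ M.Sf p) (hL : s ∈ M.L0)
    (hy : M.yv s = Y) (hz : M.zv s = Y ^ 2) :
    ∃ t ∈ M.Sf p, (t ∈ M.L1 ∨ t ∈ M.En) ∧ M.yv t = 2 * Y ∧ M.zv t = (2 * Y) ^ 2 := by
  have hc := (M.Sf_glob hs).g0 hL
  have hN : M.L1 ∪ M.En ⊆ M.Lev := by
    rintro t (ht | ht)
    · exact Or.inl (Or.inr ht)
    · exact Or.inr ht
  obtain ⟨h1, h2, h3⟩ := M.level_sums hL rfl M.disj_L0_En M.disj_L_A M.disj_AB (M.zv_L0 hL)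
    (fun t ht => M.zv_L1 ht) hc
  obtain ⟨t, ht⟩ := exists_pos_of_hasSum (M.wt_nonneg s (M.L1 ∪ M.En)) h1 (by norm_num)
  have h4 := jensen_eq (M.wt_nonneg s (M.L1 ∪ M.En)) (by norm_num) h1 h2 h3 (fun t ht => by
    obtain ⟨h5, h6⟩ := M.wt_pos ht
    exact M.sq_le (M.Sf_succ hs h6) (hN h5)) (by rw [hy, hz]; ring) t ht
  obtain ⟨h5, h6⟩ := M.wt_pos ht
  rw [hy] at h4
  have h7 : Y / (1/2) = 2 * Y := by ring
  rw [h7] at h4
  exact ⟨t, M.Sf_succ hs h6, h5, h4⟩

/-- One step along the curve from a level state of odd type. -/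
lemma step_curve1 {p Y : ℝ} {s : M.S} (hs : s ∈ M.Sf p) (hL : s ∈ M.L1)
    (hy : M.yv s = Y) (hz : M.zv s = Y ^ 2) :
    ∃ t ∈ M.Sf p, (t ∈ M.L0 ∨ t ∈ M.En) ∧ M.yv t = 2 * Y ∧ M.zv t = (2 * Y) ^ 2 := by
  have hc := (M.Sf_glob hs).g1 hL
  have hN : M.L0 ∪ M.En ⊆ M.Lev := by
    rintro t (ht | ht)
    · exact Or.inl (Or.inl ht)
    · exact Or.inr ht
  obtain ⟨h1, h2, h3⟩ := M.level_sums hL (Set.union_comm _ _) M.disj_L1_En
    (by rw [Set.union_comm]; exact M.disj_L_B) M.disj_AB.symm (M.zv_L1 hL)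
    (fun t ht => M.zv_L0 ht) hc
  obtain ⟨t, ht⟩ := exists_pos_of_hasSum (M.wt_nonneg s (M.L0 ∪ M.En)) h1 (by norm_num)
  have h4 := jensen_eq (M.wt_nonneg s (M.L0 ∪ M.En)) (by norm_num) h1 h2 h3 (fun t ht => by
    obtain ⟨h5, h6⟩ := M.wt_pos ht
    exact M.sq_le (M.Sf_succ hs h6) (hN h5)) (by rw [hy, hz]; ring) t ht
  obtain ⟨h5, h6⟩ := M.wt_pos ht
  rw [hy] at h4
  have h7 : Y / (1/2) = 2 * Y := by ring
  rw [h7] at h4
  exact ⟨t, M.Sf_succ hs h6, h5, h4⟩

/-- A level state with `z > 0` has exits of its own kind with and without the label `C`. -/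
lemma Con.exits {L L' own oth : Set M.S} {s : M.S}
    (hc : M.Con 0 (1/2) (1/4) (1/8) L L' own oth s) (hd : Disjoint own oth)
    (hz : 0 < 1 - 4 * M.pr s (M.nextSet oth)) :
    (∃ t ∈ own, t ∈ M.C) ∧ ∃ t ∈ own, t ∉ M.C := by
  have h3 := hc.c3
  have h4 := hc.c4
  rw [M.pr_next_add s (hd.mono_left Set.inter_subset_left)] at h3 h4
  refine ⟨?_, ?_⟩
  · obtain ⟨t, ht, -⟩ := M.exists_of_next_pos (s := s) (N := own ∩ M.C) (by linarith)
    exact ⟨t, ht.1, ht.2⟩
  · obtain ⟨t, ht, -⟩ := M.exists_of_next_pos (s := s) (N := own ∩ M.Cᶜ) (by linarith)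
    exact ⟨t, ht.1, ht.2⟩

/-- All six kinds of exits are there. -/
lemma exits {n : ℕ} (hn : 2 ≤ n) {s : M.S}
    (hm : M.Main 0 1 (1/2) (1/4) (1/8) (1/16) ((1/2)^(n+2)) s) :
    ((∃ t ∈ M.A, t ∈ M.C) ∧ ∃ t ∈ M.A, t ∉ M.C) ∧ ((∃ t ∈ M.B, t ∈ M.C) ∧ ∃ t ∈ M.B, t ∉ M.C) := by
  have hlt : ∀ m, 1 ≤ m → (1/2 : ℝ)^m < 1 := fun m hm1 => by
    refine pow_lt_one₀ (by norm_num) (by norm_num) (by omega)
  have key0 : ∀ t ∈ M.Sf ((1/2)^(n+2)), t ∈ M.L0 → 0 < M.zv t →
      (∃ t ∈ M.A, t ∈ M.C) ∧ ∃ t ∈ M.A, t ∉ M.C := by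
    intro t ht hL hz
    rw [M.zv_L0 hL] at hz
    exact Con.exits M ((M.Sf_glob ht).g0 hL) M.disj_AB hz
  have key1 : ∀ t ∈ M.Sf ((1/2)^(n+2)), t ∈ M.L1 → 0 < M.zv t →
      (∃ t ∈ M.B, t ∈ M.C) ∧ ∃ t ∈ M.B, t ∉ M.C := by
    intro t ht hL hz
    rw [M.zv_L1 hL] at hz
    exact Con.exits M ((M.Sf_glob ht).g1 hL) M.disj_AB.symm hz
  obtain ⟨t, h1, h2, h3, h4⟩ := M.exists_value hm 0 (Nat.zero_le n)
  rw [Nat.sub_zero] at h3 h4
  have hpos : (0:ℝ) < (1/2)^n := by positivity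
  have hE : t ∉ M.En := by
    intro h5
    rw [M.yv_En h5] at h3
    have := hlt n (by omega)
    linarith
  have h2n : 2 * (1/2 : ℝ)^n = (1/2)^(n-1) := by
    have h6 : n = (n - 1) + 1 := by omega
    conv_lhs => rw [h6]
    rw [pow_succ]; ring
  have hE' : ∀ u, M.yv u = 2 * (1/2)^n → u ∉ M.En := by
    intro u hu h5
    rw [M.yv_En h5, h2n] at hu
    have := hlt (n-1) (by omega)
    linarith
  rcases h2.resolve_right hE with hL | hL
  · obtain ⟨u, g1, g2, g3, g4⟩ := M.step_curve0 h1 hL h3 h4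
    exact ⟨key0 t h1 hL (by rw [h4]; positivity),
      key1 u g1 (g2.resolve_right (hE' u g3)) (by rw [g4]; positivity)⟩
  · obtain ⟨u, g1, g2, g3, g4⟩ := M.step_curve1 h1 hL h3 h4
    exact ⟨key0 u g1 (g2.resolve_right (hE' u g3)) (by rw [g4]; positivity),
      key1 t h1 hL (by rw [h4]; positivity)⟩

/-- There is a state without any of the five kinds of labels. -/
lemma exists_dead {n : ℕ} {s : M.S}
    (hm : M.Main 0 1 (1/2) (1/4) (1/8) (1/16) ((1/2)^(n+2)) s) :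
    ∃ t, t ∉ M.Lev ∧ t ∉ M.A ∧ t ∉ M.B := by
  have hp : ((1:ℝ)/2)^(n+2) ≤ 1/4 := half_pow_le n
  have d1 : Disjoint (M.L1 ∪ M.B) (M.L0 ∪ M.En) := by
    rw [Set.disjoint_left]
    rintro t (h | h) (h' | h')
    · exact h.2 h'
    · exact M.not_En_of_L1 h h'
    · exact h.2.1 h'
    · exact h.2.2.2.1 h'.1
  have d2 : Disjoint ((M.L1 ∪ M.B) ∪ (M.L0 ∪ M.En)) M.A := by
    rw [Set.disjoint_left]
    rintro t ((h | h) | (h | h)) h'
    · exact h'.2.2.1 h.1
    · exact h.2.2.2.2 h'.1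
    · exact h'.2.1 h
    · exact h'.2.2.2 h.1
  have h1 := M.pr_next_add s d2
  rw [M.pr_next_add s d1, hm.m2, hm.m3, hm.m5] at h1
  have h2 := M.pr_next_add s (disjoint_compl_right (a := ((M.L1 ∪ M.B) ∪ (M.L0 ∪ M.En)) ∪ M.A))
  rw [Set.union_compl_self, h1] at h2
  have h3 : M.pr s (M.nextSet Set.univ) = 1 := M.pr_of_forall s fun ω _ => trivial
  obtain ⟨t, ht, -⟩ := M.exists_of_next_pos (s := s)
    (N := (((M.L1 ∪ M.B) ∪ (M.L0 ∪ M.En)) ∪ M.A)ᶜ) (by linarith)
  refine ⟨t, ?_, fun h => ht (Or.inr h), fun h => ht (Or.inl (Or.inl (Or.inr h)))⟩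
  rintro ((h | h) | h)
  · exact ht (Or.inl (Or.inr (Or.inl h)))
  · exact ht (Or.inl (Or.inl (Or.inl h)))
  · exact ht (Or.inl (Or.inr (Or.inr h)))

/-- Every model has at least as many states as the explicit one. -/
theorem card_ge_exact {n : ℕ} (hn : 2 ≤ n) {s : M.S}
    (hm : M.Main 0 1 (1/2) (1/4) (1/8) (1/16) ((1/2)^(n+2)) s) :
    ∃ f : St n → M.S, Function.Injective f := by
  have h1 : ∀ m : Fin (n+1), ∃ t : M.S, M.yv t = (1/2)^(n - m.1) := fun m => by
    obtain ⟨t, -, -, h, -⟩ := M.exists_value hm m.1 (by omega)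
    exact ⟨t, h⟩
  choose g hg using h1
  obtain ⟨⟨⟨tAC, hAC, hAC'⟩, tA, hA, hA'⟩, ⟨tBC, hBC, hBC'⟩, tB, hB, hB'⟩ := M.exits hn hm
  obtain ⟨td, hd1, hd2, hd3⟩ := M.exists_dead hm
  have hy0 : ∀ t, t ∈ M.A ∨ t ∈ M.B → M.yv t = 0 := by
    intro t ht
    apply M.yv_of_notMem
    rintro ((h | h) | h) <;> rcases ht with h' | h'
    · exact h'.2.1 h
    · exact h'.2.1 h
    · exact h'.2.2.1 h.1
    · exact h'.2.2.1 h.1
    · exact h'.2.2.2 h.1
    · exact h'.2.2.2.1 h.1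
  have yAC := hy0 _ (Or.inl hAC)
  have yA := hy0 _ (Or.inl hA)
  have yBC := hy0 _ (Or.inr hBC)
  have yB := hy0 _ (Or.inr hB)
  have yd := M.yv_of_notMem hd1
  have ys : M.yv s = (1/2)^(n+2) := hm.m4
  have hpos : ∀ m : ℕ, (0:ℝ) < (1/2)^m := fun m => by positivity
  have hinj : ∀ a b : ℕ, (1/2 : ℝ)^a = (1/2)^b → a = b := fun a b h =>
    pow_right_injective₀ (by norm_num) (by norm_num) h
  let f : St n → M.S := fun x => match x with
    | .start => s
    | .lev k => g k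
    | .aC => tAC
    | .a => tA
    | .bC => tBC
    | .b => tB
    | .dead => td
  have hAB := Set.disjoint_left.1 M.disj_AB
  refine ⟨f, ?_⟩
  have e0 : ∀ (m : ℕ) (t u : M.S), M.yv t = (1/2)^m → M.yv u = 0 → t ≠ u := by
    rintro m t u ht hu rfl
    rw [hu] at ht
    exact (hpos m).ne ht
  have e1 : ∀ k : Fin (n+1), g k ≠ s := by
    intro k h
    have h2 := hg k
    rw [h, ys] at h2
    have := hinj _ _ h2
    omega
  have e2 : ∀ k l : Fin (n+1), g k = g l → k = l := by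
    intro k l h
    have h2 := hg k
    rw [h, hg l] at h2
    have h3 := hinj _ _ h2
    ext
    have := k.2
    have := l.2
    omega
  intro x y hxy
  have t1 : tAC ≠ tA := fun h => hA' (h ▸ hAC')
  have t2 : tBC ≠ tB := fun h => hB' (h ▸ hBC')
  have t3 : tAC ≠ tBC := fun h => hAB hAC (h ▸ hBC)
  have t4 : tAC ≠ tB := fun h => hAB hAC (h ▸ hB)
  have t5 : tA ≠ tBC := fun h => hAB hA (h ▸ hBC)
  have t6 : tA ≠ tB := fun h => hAB hA (h ▸ hB)
  have t7 : tAC ≠ td := fun h => hd2 (h ▸ hAC)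
  have t8 : tA ≠ td := fun h => hd2 (h ▸ hA)
  have t9 : tBC ≠ td := fun h => hd3 (h ▸ hBC)
  have t10 : tB ≠ td := fun h => hd3 (h ▸ hB)
  cases x with
  | start =>
    cases y with
    | start => rfl
    | lev k => exact absurd hxy.symm (e1 k)
    | aC => exact absurd hxy (e0 _ _ _ ys yAC)
    | a => exact absurd hxy (e0 _ _ _ ys yA)
    | bC => exact absurd hxy (e0 _ _ _ ys yBC)
    | b => exact absurd hxy (e0 _ _ _ ys yB)
    | dead => exact absurd hxy (e0 _ _ _ ys yd)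
  | lev k =>
    cases y with
    | start => exact absurd hxy (e1 k)
    | lev l => exact congrArg _ (e2 k l hxy)
    | aC => exact absurd hxy (e0 _ _ _ (hg k) yAC)
    | a => exact absurd hxy (e0 _ _ _ (hg k) yA)
    | bC => exact absurd hxy (e0 _ _ _ (hg k) yBC)
    | b => exact absurd hxy (e0 _ _ _ (hg k) yB)
    | dead => exact absurd hxy (e0 _ _ _ (hg k) yd)
  | aC =>
    cases y with
    | start => exact absurd hxy.symm (e0 _ _ _ ys yAC)
    | lev k => exact absurd hxy.symm (e0 _ _ _ (hg k) yAC)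
    | aC => rfl
    | a => exact absurd hxy t1
    | bC => exact absurd hxy t3
    | b => exact absurd hxy t4
    | dead => exact absurd hxy t7
  | a =>
    cases y with
    | start => exact absurd hxy.symm (e0 _ _ _ ys yA)
    | lev k => exact absurd hxy.symm (e0 _ _ _ (hg k) yA)
    | aC => exact absurd hxy.symm t1
    | a => rfl
    | bC => exact absurd hxy t5
    | b => exact absurd hxy t6
    | dead => exact absurd hxy t8
  | bC =>
    cases y with
    | start => exact absurd hxy.symm (e0 _ _ _ ys yBC)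
    | lev k => exact absurd hxy.symm (e0 _ _ _ (hg k) yBC)
    | aC => exact absurd hxy.symm t3
    | a => exact absurd hxy.symm t5
    | bC => rfl
    | b => exact absurd hxy t2
    | dead => exact absurd hxy t9
  | b =>
    cases y with
    | start => exact absurd hxy.symm (e0 _ _ _ ys yB)
    | lev k => exact absurd hxy.symm (e0 _ _ _ (hg k) yB)
    | aC => exact absurd hxy.symm t4
    | a => exact absurd hxy.symm t6
    | bC => exact absurd hxy.symm t2
    | b => rfl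
    | dead => exact absurd hxy t10
  | dead =>
    cases y with
    | start => exact absurd hxy.symm (e0 _ _ _ ys yd)
    | lev k => exact absurd hxy.symm (e0 _ _ _ (hg k) yd)
    | aC => exact absurd hxy.symm t7
    | a => exact absurd hxy.symm t8
    | bC => exact absurd hxy.symm t9
    | b => exact absurd hxy.symm t10
    | dead => rfl

end MarkovChain

/-- the states of the explicit model, counted -/
def stEquiv (n : ℕ) : St n ≃ Fin (n+1) ⊕ Fin 6 where
  toFun x := match x with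
    | .start => .inr 0
    | .lev k => .inl k
    | .aC => .inr 1
    | .a => .inr 2
    | .bC => .inr 3
    | .b => .inr 4
    | .dead => .inr 5
  invFun y := match y with
    | .inl k => .lev k
    | .inr 0 => .start
    | .inr 1 => .aC
    | .inr 2 => .a
    | .inr 3 => .bC
    | .inr 4 => .b
    | .inr 5 => .dead
  left_inv x := by cases x <;> rfl
  right_inv y := by
    rcases y with k | y
    · rfl
    · fin_cases y <;> rfl

lemma card_St (n : ℕ) : Nat.card (St n) = n + 7 := by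
  rw [Nat.card_congr (stEquiv n), Nat.card_sum, Nat.card_fin, Nat.card_fin]

/-- the rational point `q` of `[0,1]` -/
def qt (q : ℚ) (h0 : 0 ≤ q) (h1 : q ≤ 1) : Set.Icc (0 : ℚ) 1 := ⟨q, h0, h1⟩

/-- The formula, with its rational constants. -/
def ratFormula : RatParamPCTL :=
  mainF (some (qt 0 (by norm_num) (by norm_num))) (some (qt 1 (by norm_num) (by norm_num)))
    (some (qt (1/2) (by norm_num) (by norm_num))) (some (qt (1/4) (by norm_num) (by norm_num)))
    (some (qt (1/8) (by norm_num) (by norm_num))) (some (qt (1/16) (by norm_num) (by norm_num))) none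

lemma mem_sat_ratFormula (M : MarkovChain) (κ : Set.Icc (0 : ℚ) 1) (s : M.S) :
    s ∈ M.sat (ratFormula.subst κ) ↔ M.Main 0 1 (1/2) (1/4) (1/8) (1/16) ((κ : ℚ) : ℝ) s := by
  unfold ratFormula RatParamPCTL.subst
  rw [map_mainF, M.mem_sat_main]
  have e0 : ((toUnit (qt 0 (by norm_num) (by norm_num)) : unitInterval) : ℝ) = 0 := by
    simp [toUnit, qt]
  have e1 : ((toUnit (qt 1 (by norm_num) (by norm_num)) : unitInterval) : ℝ) = 1 := by
    simp [toUnit, qt]
  have e2 : ((toUnit (qt (1/2) (by norm_num) (by norm_num)) : unitInterval) : ℝ) = 1/2 := by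
    simp [toUnit, qt]
  have e3 : ((toUnit (qt (1/4) (by norm_num) (by norm_num)) : unitInterval) : ℝ) = 1/4 := by
    simp [toUnit, qt]
  have e4 : ((toUnit (qt (1/8) (by norm_num) (by norm_num)) : unitInterval) : ℝ) = 1/8 := by
    simp [toUnit, qt]
  have e5 : ((toUnit (qt (1/16) (by norm_num) (by norm_num)) : unitInterval) : ℝ) = 1/16 := by
    simp [toUnit, qt]
  have e6 : ((toUnit κ : unitInterval) : ℝ) = ((κ : ℚ) : ℝ) := rfl
  simp only [Option.getD_some, Option.getD_none]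
  rw [e0, e1, e2, e3, e4, e5, e6]

/-- **Main theorem, exact form.** There is a parameterized PCTL formula `φ` with rational constants
such that for every `n` there is a rational `κ` with `0 < κ < 1` for which the smallest model of
`φ(κ)` has exactly `n + 9` states. -/
theorem exists_exact_models :
    ∃ φ : RatParamPCTL, ∀ n : ℕ, ∃ κ : Set.Icc (0 : ℚ) 1, 0 < (κ : ℚ) ∧ (κ : ℚ) < 1 ∧
      (∃ M : MarkovChain, Finite M.S ∧ Nat.card M.S = n + 9 ∧ M.IsModel (φ.subst κ)) ∧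
      (∀ M : MarkovChain, M.IsModel (φ.subst κ) → (n : ℕ∞) + 9 ≤ ENat.card M.S) := by
  refine ⟨ratFormula, fun n => ?_⟩
  have h0 : (0:ℚ) < (1/2)^((n+2)+2) := by positivity
  have h1 : (1/2 : ℚ)^((n+2)+2) < 1 := pow_lt_one₀ (by norm_num) (by norm_num) (by omega)
  have hcast : ((((1/2 : ℚ)^((n+2)+2) : ℚ)) : ℝ) = (1/2)^((n+2)+2) := by push_cast; ring
  refine ⟨⟨(1/2)^((n+2)+2), h0.le, h1.le⟩, h0, h1, ?_, ?_⟩
  · refine ⟨chain (n+2), ?_, ?_, ⟨(.start : St (n+2)), ?_⟩⟩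
    · exact (inferInstance : Finite (St (n+2)))
    · exact card_St (n+2)
    · refine (mem_sat_ratFormula (chain (n+2)) _ _).2 ?_
      rw [hcast]
      exact chain_main (n+2)
  · rintro M ⟨s, hs⟩
    rw [mem_sat_ratFormula, hcast] at hs
    obtain ⟨f, hf⟩ := M.card_ge_exact (by omega : 2 ≤ n + 2) hs
    have h4 := ENat.card_le_card_of_injective hf
    have h5 : ENat.card (St (n+2)) = (n : ℕ∞) + 9 := by
      have : ENat.card (St (n+2)) = (Nat.card (St (n+2)) : ℕ∞) := by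
        rw [ENat.card_eq_coe_natCard]
      rw [this, card_St]
      push_cast
      ring_nf
    rwa [h5] at h4

end Pool.Agent.LibPCTL
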