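import Pool.Agent.LibPCTL.Defs

open MeasureTheory ProbabilityTheory
open scoped ENNReal unitInterval

/-!
# A parameterized PCTL formula that forces large finite models

The formula `theFormula` uses the constants `0, 1, 1/2, 1/4, 1/8, 1/16` and the parameter `p`.
In every model, a level state continues to the next level with probability `1/2`. Let `y` be the
probability of reaching an end state through level states, and let `z = 1 - 4 q`, where `q` is the
probability of the exit of the other parity (`z = 1` at end states). Two step constraints make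
both quantities averages over the level successors: `y = avg y / 2` and `z = avg z / 4`. Hence
`y ^ 2 ≤ z` on all level states, and the constraints at the initial state, where
`y = 4 p` and `z = (4 p) ^ 2` on average, force equality along all paths. So with
`p = 2 ^ (-(n + 2))` the values `2 ^ (-n), ..., 1/2, 1` of `y` all occur.
-/

namespace Pool.Agent.LibPCTL

namespace MarkovChain

variable (M : MarkovChain)

/-! ### The measure on runs -/

/-- The set of runs that agree with `x` up to time `n`. -/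
def cyl (x : ℕ → M.S) (n : ℕ) : Set (ℕ → M.S) := {ω | ∀ i ≤ n, ω i = x i}

lemma cyl_eq_preimage (x : ℕ → M.S) (n : ℕ) :
    M.cyl x n = (Preorder.frestrictLe (π := fun _ => M.S) n) ⁻¹' {Preorder.frestrictLe (π := fun _ => M.S) n x} := by
  ext ω
  simp only [cyl, Set.mem_ofPred_eq, Set.mem_preimage, Set.mem_singleton_iff]
  constructor
  · intro h
    ext i
    exact h i.1 (Finset.mem_Iic.1 i.2)
  · intro h i hi
    exact congrFun h ⟨i, Finset.mem_Iic.2 hi⟩

lemma measurableSet_cyl (x : ℕ → M.S) (n : ℕ) : MeasurableSet (M.cyl x n) := by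
  rw [cyl_eq_preimage]
  exact (Preorder.measurable_frestrictLe n) (Set.Countable.measurableSet (Set.countable_singleton _))


open Classical in
lemma runMeasure_zero (s : M.S) (A : Set M.S) :
    M.runMeasure s {ω | ω 0 ∈ A} = if s ∈ A then 1 else 0 := by
  have h := Kernel.traj_map_frestrictLe_apply (X := fun _ => M.S) (κ := M.kernel) 0 0 (fun _ => s)
  rw [Kernel.partialTraj_self] at h
  have hm : MeasurableSet {h : (Π _ : Finset.Iic 0, M.S) | h ⟨0, Finset.mem_Iic.2 le_rfl⟩ ∈ A} :=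
    (measurable_pi_apply (X := fun _ : Finset.Iic 0 => M.S) ⟨0, Finset.mem_Iic.2 le_rfl⟩) (MeasurableSet.of_discrete (s := A))
  have h2 := congrArg (fun μ => μ {h : (Π _ : Finset.Iic 0, M.S) | h ⟨0, Finset.mem_Iic.2 le_rfl⟩ ∈ A}) h
  beta_reduce at h2
  rw [Measure.map_apply (Preorder.measurable_frestrictLe 0) hm] at h2
  rw [Kernel.id_apply, Measure.dirac_apply' _ hm] at h2
  unfold runMeasure
  refine Eq.trans ?_ (h2.trans ?_)
  · rfl
  · simp [Set.indicator_apply]

lemma runMeasure_cyl_succ (s : M.S) (x : ℕ → M.S) (n : ℕ) :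
    M.runMeasure s (M.cyl x (n+1)) = M.runMeasure s (M.cyl x n) * M.step (x n) (x (n+1)) := by
  have h := Kernel.partialTraj_compProd_eq_map_traj (X := fun _ => M.S) (κ := M.kernel) (a := 0) (b := n) (Nat.zero_le n) (x₀ := fun _ => s)
  set xr : (Π _ : Finset.Iic n, M.S) := Preorder.frestrictLe (π := fun _ => M.S) n x with hxr
  have hS : MeasurableSet (({xr} : Set (Π _ : Finset.Iic n, M.S)) ×ˢ ({x (n+1)} : Set M.S)) :=
    (Set.countable_singleton _).measurableSet.prod (Set.countable_singleton _).measurableSet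
  have h2 := congrArg (fun μ => μ (({xr} : Set (Π _ : Finset.Iic n, M.S)) ×ˢ ({x (n+1)} : Set M.S))) h
  beta_reduce at h2
  rw [Measure.map_apply (by fun_prop) hS, Measure.compProd_apply_prod (Set.countable_singleton _).measurableSet (Set.countable_singleton _).measurableSet] at h2
  rw [lintegral_singleton] at h2
  have h3 : M.cyl x (n+1) = (fun ω : ℕ → M.S => ((Preorder.frestrictLe (π := fun _ => M.S) n ω : (Π _ : Finset.Iic n, M.S)), ω (n + 1))) ⁻¹'
      (({xr} : Set (Π _ : Finset.Iic n, M.S)) ×ˢ ({x (n+1)} : Set M.S)) := by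
    have e1 := M.cyl_eq_preimage x n
    ext ω
    have e2 : ω ∈ M.cyl x n ↔ Preorder.frestrictLe (π := fun _ => M.S) n ω = xr := by
      rw [e1]; rfl
    simp only [Set.mem_preimage, Set.mem_prod, Set.mem_singleton_iff, ← e2]
    simp only [cyl, Set.mem_ofPred_eq]
    constructor
    · intro h
      exact ⟨fun i hi => h i (by omega), h (n+1) le_rfl⟩
    · rintro ⟨h4, h5⟩ i hi
      rcases Nat.lt_or_ge i (n+1) with h6 | h6
      · exact h4 i (by omega)
      · have : i = n + 1 := by omega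
        subst this; exact h5
  have h4 : (Kernel.partialTraj (X := fun _ => M.S) M.kernel 0 n (fun _ => s)) {xr} = M.runMeasure s (M.cyl x n) := by
    rw [← Kernel.traj_map_frestrictLe_apply, Measure.map_apply (Preorder.measurable_frestrictLe n) (Set.countable_singleton _).measurableSet,
      M.cyl_eq_preimage]
    rfl
  have h5 : ((M.kernel n) xr) {x (n + 1)} = M.step (x n) (x (n+1)) := by
    change (M.step (x n)).toMeasure {x (n+1)} = _
    rw [PMF.toMeasure_apply_singleton _ _ (Set.countable_singleton _).measurableSet]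
  rw [h3, ← h4, ← h5, mul_comm]
  exact h2.symm

lemma generateFrom_cyl :
    (MeasurableSpace.pi : MeasurableSpace (ℕ → M.S)) =
      MeasurableSpace.generateFrom (insert ∅ {A | ∃ x n, A = M.cyl x n}) := by
  apply le_antisymm
  · rw [MeasurableSpace.pi_eq_generateFrom_projections]
    apply MeasurableSpace.generateFrom_le
    rintro B ⟨i, A, -, rfl⟩
    classical
    -- the union over finite words
    let ext : (Fin (i+1) → M.S) → (ℕ → M.S) := fun w j => if h : j < i + 1 then w ⟨j, h⟩ else w ⟨i, by omega⟩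
    have : Function.eval i ⁻¹' A = ⋃ w : {w : Fin (i+1) → M.S // w ⟨i, by omega⟩ ∈ A}, M.cyl (ext w.1) i := by
      ext ω
      simp only [Set.mem_preimage, Function.eval, Set.mem_iUnion, cyl, Set.mem_ofPred_eq]
      constructor
      · intro h
        refine ⟨⟨fun j => ω j, h⟩, ?_⟩
        intro j hj
        simp only [ext]
        rw [dif_pos (by omega)]
      · rintro ⟨⟨w, hw⟩, h⟩
        have := h i le_rfl
        simp only [ext] at this
        rw [dif_pos (by omega)] at this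
        rw [this]; exact hw
    rw [this]
    exact MeasurableSet.iUnion fun w => MeasurableSpace.measurableSet_generateFrom
      (Set.mem_insert_of_mem _ ⟨_, _, rfl⟩)
  · apply MeasurableSpace.generateFrom_le
    rintro B (rfl | ⟨x, n, rfl⟩)
    · exact MeasurableSet.empty
    · exact M.measurableSet_cyl x n

lemma isPiSystem_cyl : IsPiSystem (insert ∅ {A | ∃ x n, A = M.cyl x n}) := by
  rintro A (rfl | ⟨x, n, rfl⟩) B (rfl | ⟨y, m, rfl⟩) hAB
  · simp
  · simp
  · simp
  · obtain ⟨ω, h1, h2⟩ := hAB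
    refine Set.mem_insert_of_mem _ ⟨ω, max n m, ?_⟩
    ext ω'
    simp only [cyl, Set.mem_inter_iff, Set.mem_ofPred_eq] at h1 h2 ⊢
    constructor
    · rintro ⟨h3, h4⟩ i hi
      rcases le_total n m with h | h
      · rw [max_eq_right h] at hi
        rw [h4 i hi, h2 i hi]
      · rw [max_eq_left h] at hi
        rw [h3 i hi, h1 i hi]
    · intro h
      refine ⟨fun i hi => ?_, fun i hi => ?_⟩
      · rw [h i (le_max_of_le_left hi), h1 i hi]
      · rw [h i (le_max_of_le_right hi), h2 i hi]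

lemma measure_ext_cyl (μ ν : Measure (ℕ → M.S)) [IsProbabilityMeasure μ] [IsProbabilityMeasure ν]
    (h : ∀ x n, μ (M.cyl x n) = ν (M.cyl x n)) : μ = ν := by
  refine MeasureTheory.ext_of_generate_finite _ M.generateFrom_cyl M.isPiSystem_cyl ?_ ?_
  · rintro A (rfl | ⟨x, n, rfl⟩)
    · simp
    · exact h x n
  · simp

/-- the shift -/
def shift (ω : ℕ → M.S) : ℕ → M.S := fun n => ω (n+1)

lemma measurable_shift : Measurable M.shift := by
  unfold shift
  fun_prop

lemma measurable_runMeasure : Measurable M.runMeasure := measurable_of_countable _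

lemma runMeasure_cyl_zero (s : M.S) (x : ℕ → M.S) :
    M.runMeasure s (M.cyl x 0) = M.runMeasure s {ω | ω 0 ∈ ({x 0} : Set M.S)} := by
  congr 1
  ext ω
  simp [cyl]

lemma runMeasure_start (s : M.S) : M.runMeasure s {ω | ω 0 = s} = 1 := by
  have := M.runMeasure_zero s {s}
  simpa using this

lemma ae_start (s : M.S) : ∀ᵐ ω ∂(M.runMeasure s), ω 0 = s := by
  have h : Measurable (fun ω : ℕ → M.S => ω 0 = s) :=
    measurable_of_countable (fun a : M.S => a = s) |>.comp (measurable_pi_apply 0)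
  rw [ae_iff_prob_eq_one h, M.runMeasure_start s]

/-- prepend a state -/
def cons (s : M.S) (x : ℕ → M.S) : ℕ → M.S
  | 0 => s
  | n+1 => x n

lemma runMeasure_cons (s : M.S) (x : ℕ → M.S) (n : ℕ) :
    M.runMeasure s (M.cyl (M.cons s x) (n+1)) = M.step s (x 0) * M.runMeasure (x 0) (M.cyl x n) := by
  induction n with
  | zero =>
    rw [runMeasure_cyl_succ, runMeasure_cyl_zero, runMeasure_cyl_zero, runMeasure_zero, runMeasure_zero]
    simp [cons]
  | succ n ih =>
    rw [runMeasure_cyl_succ, ih, runMeasure_cyl_succ]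
    simp only [cons]
    ring

lemma lintegral_step (s : M.S) (f : M.S → ℝ≥0∞) :
    ∫⁻ t, f t ∂(M.step s).toMeasure = ∑' t, f t * ENNReal.ofReal (M.P s t) := by
  rw [lintegral_countable']
  congr 1
  ext t
  rw [PMF.toMeasure_apply_singleton _ _ (Set.countable_singleton _).measurableSet]
  rfl

theorem map_shift (s : M.S) :
    (M.runMeasure s).map M.shift = (M.step s).toMeasure.bind M.runMeasure := by
  have : IsProbabilityMeasure ((M.runMeasure s).map M.shift) :=
    Measure.isProbabilityMeasure_map M.measurable_shift.aemeasurable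
  have : IsProbabilityMeasure ((M.step s).toMeasure.bind M.runMeasure) := by
    constructor
    rw [Measure.bind_apply MeasurableSet.univ M.measurable_runMeasure.aemeasurable]
    simp
  apply M.measure_ext_cyl
  intro x n
  rw [Measure.map_apply M.measurable_shift (M.measurableSet_cyl x n),
    Measure.bind_apply (M.measurableSet_cyl x n) M.measurable_runMeasure.aemeasurable]
  have h1 : M.runMeasure s (M.shift ⁻¹' M.cyl x n) = M.runMeasure s (M.cyl (M.cons s x) (n+1)) := by
    apply measure_congr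
    filter_upwards [M.ae_start s] with ω hω
    apply propext
    change (∀ i ≤ n, ω (i+1) = x i) ↔ (∀ i ≤ n+1, ω i = M.cons s x i)
    constructor
    · rintro h (_ | i) hi
      · exact hω
      · exact h i (by omega)
    · intro h i hi
      exact h (i+1) (by omega)
  have h2 : ∫⁻ t, M.runMeasure t (M.cyl x n) ∂(M.step s).toMeasure = M.step s (x 0) * M.runMeasure (x 0) (M.cyl x n) := by
    have h3 : ∀ t, t ∉ ({x 0} : Set M.S) → M.runMeasure t (M.cyl x n) = 0 := by
      intro t ht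
      have : M.runMeasure t (M.cyl x 0) = 0 := by
        rw [runMeasure_cyl_zero, runMeasure_zero, if_neg ht]
      refine measure_mono_null ?_ this
      intro ω hω i hi
      exact hω i (by omega)
    rw [lintegral_step, tsum_eq_single (x 0)]
    · rw [mul_comm]; rfl
    · intro t ht
      rw [h3 t ht, zero_mul]
  rw [h1, h2, runMeasure_cons]

/-- probability of a set of runs, as a real number -/
noncomputable def pr (s : M.S) (E : Set (ℕ → M.S)) : ℝ := (M.runMeasure s).real E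

lemma pr_nonneg (s : M.S) (E : Set (ℕ → M.S)) : 0 ≤ M.pr s E := measureReal_nonneg
lemma pr_le_one (s : M.S) (E : Set (ℕ → M.S)) : M.pr s E ≤ 1 := measureReal_le_one

theorem hasSum_shift (s : M.S) {E : Set (ℕ → M.S)} (hE : MeasurableSet E) :
    HasSum (fun t => M.P s t * M.pr t E) (M.pr s (M.shift ⁻¹' E)) := by
  have h1 : M.runMeasure s (M.shift ⁻¹' E) = ∑' t, M.runMeasure t E * ENNReal.ofReal (M.P s t) := by
    rw [← Measure.map_apply M.measurable_shift hE, map_shift,
      Measure.bind_apply hE M.measurable_runMeasure.aemeasurable, lintegral_step]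
  have h2 : ∀ t, (M.runMeasure t E * ENNReal.ofReal (M.P s t)) = ENNReal.ofReal (M.P s t * M.pr t E) := by
    intro t
    rw [mul_comm, ENNReal.ofReal_mul (M.nonneg s t)]
    congr 1
    rw [pr, Measure.real, ENNReal.ofReal_toReal (measure_ne_top _ _)]
  have h3 : Summable (fun t => M.P s t * M.pr t E) := by
    refine Summable.of_nonneg_of_le (fun t => mul_nonneg (M.nonneg s t) (M.pr_nonneg t E)) (fun t => ?_) (M.hasSum s).summable
    exact mul_le_of_le_one_right (M.nonneg s t) (M.pr_le_one t E)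
  have h4 : M.pr s (M.shift ⁻¹' E) = ∑' t, M.P s t * M.pr t E := by
    rw [pr, Measure.real, h1]
    simp_rw [h2]
    rw [← ENNReal.ofReal_tsum_of_nonneg (fun t => mul_nonneg (M.nonneg s t) (M.pr_nonneg t E)) h3,
      ENNReal.toReal_ofReal (tsum_nonneg (fun t => mul_nonneg (M.nonneg s t) (M.pr_nonneg t E)))]
  rw [h4]
  exact h3.hasSum

/-- runs satisfying `X A` -/
def nextSet (A : Set M.S) : Set (ℕ → M.S) := {ω | ω 1 ∈ A}
/-- runs satisfying `A U B` -/
def untilSet (A B : Set M.S) : Set (ℕ → M.S) := {ω | ∃ j, ω j ∈ B ∧ ∀ i < j, ω i ∈ A}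
/-- runs satisfying `A U^{≤ k} B` -/
def untilLeSet (k : ℕ) (A B : Set M.S) : Set (ℕ → M.S) := {ω | ∃ j ≤ k, ω j ∈ B ∧ ∀ i < j, ω i ∈ A}

lemma measurableSet_coord (i : ℕ) (A : Set M.S) : MeasurableSet {ω : ℕ → M.S | ω i ∈ A} :=
  (measurable_pi_apply i) (MeasurableSet.of_discrete (s := A))

lemma measurableSet_untilLeSet (k : ℕ) (A B : Set M.S) : MeasurableSet (M.untilLeSet k A B) := by
  have : M.untilLeSet k A B = ⋃ j, ⋃ (_ : j ≤ k), ({ω | ω j ∈ B} ∩ ⋂ i, ⋂ (_ : i < j), {ω | ω i ∈ A}) := by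
    ext ω
    simp only [untilLeSet, Set.mem_iUnion, Set.mem_inter_iff, Set.mem_iInter, Set.mem_ofPred_eq, exists_prop]
  rw [this]
  exact MeasurableSet.iUnion fun j => MeasurableSet.iUnion fun _ =>
    (M.measurableSet_coord j B).inter (MeasurableSet.iInter fun i => MeasurableSet.iInter fun _ => M.measurableSet_coord i A)

lemma untilSet_eq_iUnion (A B : Set M.S) : M.untilSet A B = ⋃ k, M.untilLeSet k A B := by
  ext ω
  simp only [untilSet, untilLeSet, Set.mem_ofPred_eq, Set.mem_iUnion]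
  constructor
  · rintro ⟨j, h⟩; exact ⟨j, j, le_rfl, h⟩
  · rintro ⟨k, j, -, h⟩; exact ⟨j, h⟩

lemma measurableSet_untilSet (A B : Set M.S) : MeasurableSet (M.untilSet A B) := by
  rw [untilSet_eq_iUnion]
  exact MeasurableSet.iUnion fun k => M.measurableSet_untilLeSet k A B

lemma pr_congr (s : M.S) {E F : Set (ℕ → M.S)} (h : ∀ ω, ω 0 = s → (ω ∈ E ↔ ω ∈ F)) :
    M.pr s E = M.pr s F := by
  unfold pr Measure.real
  congr 1
  apply measure_congr
  filter_upwards [M.ae_start s] with ω hω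
  exact propext (h ω hω)

lemma pr_of_forall (s : M.S) {E : Set (ℕ → M.S)} (h : ∀ ω, ω 0 = s → ω ∈ E) : M.pr s E = 1 := by
  rw [M.pr_congr s (F := Set.univ) (fun ω hω => by simp [h ω hω])]
  simp [pr]

lemma pr_of_forall_not (s : M.S) {E : Set (ℕ → M.S)} (h : ∀ ω, ω 0 = s → ω ∉ E) : M.pr s E = 0 := by
  rw [M.pr_congr s (F := ∅) (fun ω hω => by simp [h ω hω])]
  simp [pr]

open Classical in
lemma hasSum_next (s : M.S) (A : Set M.S) :
    HasSum (fun t => M.P s t * (if t ∈ A then 1 else 0)) (M.pr s (M.nextSet A)) := by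
  have h := M.hasSum_shift s (M.measurableSet_coord 0 A)
  have h2 : ∀ t, M.pr t {ω | ω 0 ∈ A} = if t ∈ A then 1 else 0 := by
    intro t
    rw [pr, Measure.real, runMeasure_zero]
    split_ifs <;> simp
  simp_rw [h2] at h
  exact h

lemma pr_until_of_mem (s : M.S) (A B : Set M.S) (h : s ∈ B) : M.pr s (M.untilSet A B) = 1 :=
  M.pr_of_forall s fun ω hω => ⟨0, by rw [hω]; exact h, fun i hi => absurd hi (Nat.not_lt_zero i)⟩

lemma pr_untilLe_of_mem (s : M.S) (k : ℕ) (A B : Set M.S) (h : s ∈ B) : M.pr s (M.untilLeSet k A B) = 1 :=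
  M.pr_of_forall s fun ω hω => ⟨0, Nat.zero_le _, by rw [hω]; exact h, fun i hi => absurd hi (Nat.not_lt_zero i)⟩

lemma pr_until_of_notMem (s : M.S) (A B : Set M.S) (h : s ∉ B) (h' : s ∉ A) : M.pr s (M.untilSet A B) = 0 := by
  apply M.pr_of_forall_not s
  rintro ω hω ⟨j, hj, hj'⟩
  rcases j with _ | j
  · exact h (hω ▸ hj)
  · exact h' (hω ▸ hj' 0 (Nat.succ_pos j))

lemma pr_untilLe_of_notMem (s : M.S) (k : ℕ) (A B : Set M.S) (h : s ∉ B) (h' : s ∉ A) : M.pr s (M.untilLeSet k A B) = 0 := by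
  apply M.pr_of_forall_not s
  rintro ω hω ⟨j, -, hj, hj'⟩
  rcases j with _ | j
  · exact h (hω ▸ hj)
  · exact h' (hω ▸ hj' 0 (Nat.succ_pos j))

lemma pr_untilLe_zero (s : M.S) (A B : Set M.S) (h : s ∉ B) : M.pr s (M.untilLeSet 0 A B) = 0 := by
  apply M.pr_of_forall_not s
  rintro ω hω ⟨j, hj0, hj, hj'⟩
  obtain rfl : j = 0 := by omega
  exact h (hω ▸ hj)

lemma hasSum_until (s : M.S) (A B : Set M.S) (h : s ∉ B) (h' : s ∈ A) :
    HasSum (fun t => M.P s t * M.pr t (M.untilSet A B)) (M.pr s (M.untilSet A B)) := by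
  have h1 := M.hasSum_shift s (M.measurableSet_untilSet A B)
  have h2 : M.pr s (M.untilSet A B) = M.pr s (M.shift ⁻¹' M.untilSet A B) := by
    apply M.pr_congr
    intro ω hω
    simp only [untilSet, shift, Set.mem_preimage, Set.mem_ofPred_eq]
    constructor
    · rintro ⟨j, hj, hj'⟩
      rcases j with _ | j
      · exact absurd (hω ▸ hj) h
      · exact ⟨j, hj, fun i hi => hj' (i+1) (by omega)⟩
    · rintro ⟨j, hj, hj'⟩
      refine ⟨j+1, hj, ?_⟩
      rintro (_ | i) hi
      · rw [hω]; exact h'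
      · exact hj' i (by omega)
  rw [h2]
  exact h1

lemma hasSum_untilLe (s : M.S) (k : ℕ) (A B : Set M.S) (h : s ∉ B) (h' : s ∈ A) :
    HasSum (fun t => M.P s t * M.pr t (M.untilLeSet k A B)) (M.pr s (M.untilLeSet (k+1) A B)) := by
  have h1 := M.hasSum_shift s (M.measurableSet_untilLeSet k A B)
  have h2 : M.pr s (M.untilLeSet (k+1) A B) = M.pr s (M.shift ⁻¹' M.untilLeSet k A B) := by
    apply M.pr_congr
    intro ω hω
    simp only [untilLeSet, shift, Set.mem_preimage, Set.mem_ofPred_eq]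
    constructor
    · rintro ⟨j, hjk, hj, hj'⟩
      rcases j with _ | j
      · exact absurd (hω ▸ hj) h
      · exact ⟨j, by omega, hj, fun i hi => hj' (i+1) (by omega)⟩
    · rintro ⟨j, hjk, hj, hj'⟩
      refine ⟨j+1, by omega, hj, ?_⟩
      rintro (_ | i) hi
      · rw [hω]; exact h'
      · exact hj' i (by omega)
  rw [h2]
  exact h1

/-- a set of states closed under transitions is never left -/
lemma pr_until_eq_zero_of_closed (K A B : Set M.S) (hK : ∀ s ∈ K, ∀ t, 0 < M.P s t → t ∈ K)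
    (hKB : ∀ s ∈ K, s ∉ B) (s : M.S) (hs : s ∈ K) : M.pr s (M.untilSet A B) = 0 := by
  have h1 : ∀ k, ∀ s ∈ K, M.pr s (M.untilLeSet k A B) = 0 := by
    intro k
    induction k with
    | zero => intro s hs; exact M.pr_untilLe_zero s A B (hKB s hs)
    | succ k ih =>
      intro s hs
      by_cases hA : s ∈ A
      · have h2 := M.hasSum_untilLe s k A B (hKB s hs) hA
        have h3 : (fun t => M.P s t * M.pr t (M.untilLeSet k A B)) = fun _ => 0 := by
          ext t
          rcases (M.nonneg s t).eq_or_lt with h | h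
          · rw [← h, zero_mul]
          · rw [ih t (hK s hs t h), mul_zero]
        rw [h3] at h2
        exact h2.unique hasSum_zero
      · exact M.pr_untilLe_of_notMem s _ A B (hKB s hs) hA
  have h4 : M.runMeasure s (M.untilSet A B) = 0 := by
    rw [untilSet_eq_iUnion]
    apply measure_iUnion_null
    intro k
    have := h1 k s hs
    rwa [pr, measureReal_eq_zero_iff] at this
  rw [pr, measureReal_eq_zero_iff]
  exact h4

end MarkovChain

section formula

variable {R : Type}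

def tt : PCTL R := .neg (.and (.atom 0) (.neg (.atom 0)))
def orF (Φ Ψ : PCTL R) : PCTL R := .neg (.and (.neg Φ) (.neg Ψ))
def impF (Φ Ψ : PCTL R) : PCTL R := .neg (.and Φ (.neg Ψ))
def fL0 : PCTL R := .atom 0
def fL1 : PCTL R := .and (.atom 1) (.neg (.atom 0))
def fEn : PCTL R := .and (.atom 2) (.and (.neg (.atom 0)) (.neg (.atom 1)))
def fA : PCTL R := .and (.atom 3) (.and (.neg (.atom 0)) (.and (.neg (.atom 1)) (.neg (.atom 2))))
def fB : PCTL R := .and (.atom 4) (.and (.neg (.atom 0)) (.and (.neg (.atom 1)) (.and (.neg (.atom 2)) (.neg (.atom 3)))))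
def fC : PCTL R := .atom 5

/-- the constraint on level states -/
def conF (z h q e : R) (L L' own oth : PCTL R) : PCTL R :=
  .and (.probNext .eq h (orF L' fEn)) <| .and (.probNext .eq z L) <|
  .and (.probNext .eq q (orF (.and own fC) oth)) <|
  .and (.probNext .eq q (orF (.and own (.neg fC)) oth)) <|
  .probUntilLe .eq e 2 (orF L L') own

def globF (z h q e p : R) : PCTL R :=
  .and (impF fL0 (conF z h q e fL0 fL1 fA fB)) <|
  .and (impF fL1 (conF z h q e fL1 fL0 fB fA)) <|
  impF fA (.probNext .eq p fB)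

def mainF (z o h q e x p : R) : PCTL R :=
  .and fL1 <| .and (.probNext .eq z (orF fL1 fB)) <|
  .and (.probNext .eq q (orF fL0 fEn)) <|
  .and (.probUntil .eq p (orF fL0 fL1) fEn) <|
  .and (.probNext .eq p fA) <|
  .and (.probUntilLe .eq x 2 (orF (orF fL0 fL1) fA) fB) <|
  .probNext .eq o (.probUntil .eq z tt (.neg (globF z h q e p)))

lemma map_mainF {R' : Type} (f : R → R') (z o h q e x p : R) :
    (mainF z o h q e x p).map f = mainF (f z) (f o) (f h) (f q) (f e) (f x) (f p) := rfl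

end formula

namespace MarkovChain

variable (M : MarkovChain)

def L0 : Set M.S := {s | 0 ∈ M.v s}
def L1 : Set M.S := {s | 1 ∈ M.v s ∧ 0 ∉ M.v s}
def En : Set M.S := {s | 2 ∈ M.v s ∧ 0 ∉ M.v s ∧ 1 ∉ M.v s}
def A : Set M.S := {s | 3 ∈ M.v s ∧ 0 ∉ M.v s ∧ 1 ∉ M.v s ∧ 2 ∉ M.v s}
def B : Set M.S := {s | 4 ∈ M.v s ∧ 0 ∉ M.v s ∧ 1 ∉ M.v s ∧ 2 ∉ M.v s ∧ 3 ∉ M.v s}
def C : Set M.S := {s | 5 ∈ M.v s}

@[simp] lemma sat_L0 : M.sat fL0 = M.L0 := rfl
@[simp] lemma sat_L1 : M.sat fL1 = M.L1 := rfl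
@[simp] lemma sat_En : M.sat fEn = M.En := rfl
@[simp] lemma sat_A : M.sat fA = M.A := rfl
@[simp] lemma sat_B : M.sat fB = M.B := rfl
@[simp] lemma sat_C : M.sat fC = M.C := rfl
@[simp] lemma sat_neg (Φ : PCTL unitInterval) : M.sat (.neg Φ) = (M.sat Φ)ᶜ := rfl
@[simp] lemma sat_and (Φ Ψ : PCTL unitInterval) : M.sat (.and Φ Ψ) = M.sat Φ ∩ M.sat Ψ := rfl
@[simp] lemma sat_or (Φ Ψ : PCTL unitInterval) : M.sat (orF Φ Ψ) = M.sat Φ ∪ M.sat Ψ := by
  ext s
  simp [orF, Set.mem_union, or_iff_not_imp_left]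
@[simp] lemma sat_tt : M.sat tt = Set.univ := by
  ext s
  simp [tt]
lemma mem_sat_imp (Φ Ψ : PCTL unitInterval) (s : M.S) : s ∈ M.sat (impF Φ Ψ) ↔ (s ∈ M.sat Φ → s ∈ M.sat Ψ) := by
  simp [impF]
lemma mem_sat_next (r : unitInterval) (Φ : PCTL unitInterval) (s : M.S) :
    s ∈ M.sat (.probNext .eq r Φ) ↔ M.pr s (M.nextSet (M.sat Φ)) = r := Iff.rfl
lemma mem_sat_until (r : unitInterval) (Φ Ψ : PCTL unitInterval) (s : M.S) :
    s ∈ M.sat (.probUntil .eq r Φ Ψ) ↔ M.pr s (M.untilSet (M.sat Φ) (M.sat Ψ)) = r := Iff.rfl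
lemma mem_sat_untilLe (r : unitInterval) (k : ℕ) (Φ Ψ : PCTL unitInterval) (s : M.S) :
    s ∈ M.sat (.probUntilLe .eq r k Φ Ψ) ↔ M.pr s (M.untilLeSet k (M.sat Φ) (M.sat Ψ)) = r := Iff.rfl

/-- semantic form of the constraint on level states -/
structure Con (z h q e : ℝ) (L L' own oth : Set M.S) (s : M.S) : Prop where
  c1 : M.pr s (M.nextSet (L' ∪ M.En)) = h
  c2 : M.pr s (M.nextSet L) = z
  c3 : M.pr s (M.nextSet ((own ∩ M.C) ∪ oth)) = q
  c4 : M.pr s (M.nextSet ((own ∩ M.Cᶜ) ∪ oth)) = q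
  c5 : M.pr s (M.untilLeSet 2 (L ∪ L') own) = e

lemma mem_sat_con (z h q e : unitInterval) (L L' own oth : PCTL unitInterval) (s : M.S) :
    s ∈ M.sat (conF z h q e L L' own oth) ↔
      M.Con z h q e (M.sat L) (M.sat L') (M.sat own) (M.sat oth) s := by
  simp only [conF, sat_and, Set.mem_inter_iff, mem_sat_next, mem_sat_untilLe, sat_or, sat_En, sat_neg, sat_C]
  constructor
  · rintro ⟨h1, h2, h3, h4, h5⟩
    exact ⟨h1, h2, h3, h4, h5⟩
  · rintro ⟨h1, h2, h3, h4, h5⟩
    exact ⟨h1, h2, h3, h4, h5⟩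

structure Glob (z h q e p : ℝ) (s : M.S) : Prop where
  g0 : s ∈ M.L0 → M.Con z h q e M.L0 M.L1 M.A M.B s
  g1 : s ∈ M.L1 → M.Con z h q e M.L1 M.L0 M.B M.A s
  g2 : s ∈ M.A → M.pr s (M.nextSet M.B) = p

lemma mem_sat_glob (z h q e p : unitInterval) (s : M.S) :
    s ∈ M.sat (globF z h q e p) ↔ M.Glob z h q e p s := by
  simp only [globF, sat_and, Set.mem_inter_iff, mem_sat_imp, mem_sat_con, mem_sat_next, sat_L0, sat_L1, sat_A, sat_B]
  constructor
  · rintro ⟨h1, h2, h3⟩
    exact ⟨h1, h2, h3⟩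
  · rintro ⟨h1, h2, h3⟩
    exact ⟨h1, h2, h3⟩

/-- states from which the global constraint is never violated -/
def Safe (z h q e p : ℝ) : Set M.S := {s | M.pr s (M.untilSet Set.univ {t | ¬ M.Glob z h q e p t}) = z}

structure Main (z o h q e x p : ℝ) (s : M.S) : Prop where
  m1 : s ∈ M.L1
  m2 : M.pr s (M.nextSet (M.L1 ∪ M.B)) = z
  m3 : M.pr s (M.nextSet (M.L0 ∪ M.En)) = q
  m4 : M.pr s (M.untilSet (M.L0 ∪ M.L1) M.En) = p
  m5 : M.pr s (M.nextSet M.A) = p
  m6 : M.pr s (M.untilLeSet 2 (M.L0 ∪ M.L1 ∪ M.A) M.B) = x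
  m7 : M.pr s (M.nextSet (M.Safe z h q e p)) = o

lemma mem_sat_main (z o h q e x p : unitInterval) (s : M.S) :
    s ∈ M.sat (mainF z o h q e x p) ↔ M.Main z o h q e x p s := by
  have hS : M.sat (.probUntil .eq z tt (.neg (globF z h q e p))) = M.Safe z h q e p := by
    ext t
    rw [mem_sat_until, sat_tt]
    have : M.sat (.neg (globF z h q e p)) = {t | ¬ M.Glob z h q e p t} := by
      ext u
      rw [sat_neg, Set.mem_compl_iff, mem_sat_glob]; rfl
    rw [this]; rfl
  simp only [mainF, sat_and, Set.mem_inter_iff, mem_sat_next, mem_sat_until, mem_sat_untilLe, sat_or, sat_L0, sat_L1,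
    sat_A, sat_B, sat_En, hS]
  constructor
  · rintro ⟨h1, h2, h3, h4, h5, h6, h7⟩
    exact ⟨h1, h2, h3, h4, h5, h6, h7⟩
  · rintro ⟨h1, h2, h3, h4, h5, h6, h7⟩
    exact ⟨h1, h2, h3, h4, h5, h6, h7⟩


/-! ### Quadratic comparison -/

lemma hasSum_of_eq {S : Type} {f g : S → ℝ} {a : ℝ} (h : HasSum g a) (hfg : ∀ t, f t = g t) :
    HasSum f a := by
  rwa [funext hfg]

lemma jensen {S : Type} {w y z : S → ℝ} {W Y Z ε : ℝ} (hw : ∀ t, 0 ≤ w t) (hW : 0 < W)
    (h1 : HasSum w W) (h2 : HasSum (fun t => w t * y t) Y) (h3 : HasSum (fun t => w t * z t) Z)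
    (h : ∀ t, 0 < w t → y t ^ 2 ≤ z t + ε) : Y ^ 2 ≤ W * (Z + ε * W) := by
  have h4 : HasSum (fun t => w t * z t + ε * w t - 2 * (Y / W) * (w t * y t) + (Y / W)^2 * w t)
      (Z + ε * W - 2 * (Y / W) * Y + (Y / W)^2 * W) :=
    ((h3.add (h1.mul_left ε)).sub (h2.mul_left (2 * (Y / W)))).add (h1.mul_left ((Y/W)^2))
  have h5 : 0 ≤ Z + ε * W - 2 * (Y / W) * Y + (Y / W)^2 * W := by
    refine h4.nonneg fun t => ?_
    rcases (hw t).eq_or_lt with h6 | h6
    · rw [← h6]; simp
    · have h7 := h t h6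
      have : 0 ≤ w t * (z t + ε - y t ^ 2) + w t * (y t - Y / W)^2 :=
        add_nonneg (mul_nonneg (hw t) (by linarith)) (mul_nonneg (hw t) (sq_nonneg _))
      nlinarith [this]
  have h6 : W * (Z + ε * W - 2 * (Y / W) * Y + (Y / W)^2 * W) = W * (Z + ε * W) - Y ^ 2 := by
    field_simp
    ring
  have h7 : 0 ≤ W * (Z + ε * W - 2 * (Y / W) * Y + (Y / W)^2 * W) := mul_nonneg hW.le h5
  linarith

lemma jensen_eq {S : Type} {w y z : S → ℝ} {W Y Z : ℝ} (hw : ∀ t, 0 ≤ w t) (hW : 0 < W)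
    (h1 : HasSum w W) (h2 : HasSum (fun t => w t * y t) Y) (h3 : HasSum (fun t => w t * z t) Z)
    (h : ∀ t, 0 < w t → y t ^ 2 ≤ z t) (heq : Y ^ 2 = W * Z) :
    ∀ t, 0 < w t → y t = Y / W ∧ z t = (Y / W) ^ 2 := by
  have h4 : HasSum (fun t => w t * z t - 2 * (Y / W) * (w t * y t) + (Y / W)^2 * w t)
      (Z - 2 * (Y / W) * Y + (Y / W)^2 * W) :=
    (h3.sub (h2.mul_left (2 * (Y / W)))).add (h1.mul_left ((Y/W)^2))
  have h5 : Z - 2 * (Y / W) * Y + (Y / W)^2 * W = 0 := by
    have : W * (Z - 2 * (Y / W) * Y + (Y / W)^2 * W) = 0 := by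
      have h6 : W * (Z - 2 * (Y / W) * Y + (Y / W)^2 * W) = W * Z - Y ^ 2 := by
        field_simp
        ring
      rw [h6, heq, sub_self]
    exact (mul_eq_zero.1 this).resolve_left hW.ne'
  rw [h5] at h4
  have h7 : ∀ t, 0 ≤ w t * z t - 2 * (Y / W) * (w t * y t) + (Y / W)^2 * w t := by
    intro t
    rcases (hw t).eq_or_lt with h6 | h6
    · rw [← h6]; simp
    · have h7 := h t h6
      have : 0 ≤ w t * (z t - y t ^ 2) + w t * (y t - Y / W)^2 :=
        add_nonneg (mul_nonneg (hw t) (by linarith)) (mul_nonneg (hw t) (sq_nonneg _))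
      nlinarith [this]
  have h8 := (hasSum_zero_iff_of_nonneg h7).1 h4
  intro t ht
  have h9 : w t * z t - 2 * (Y / W) * (w t * y t) + (Y / W)^2 * w t = 0 := congrFun h8 t
  have h10 : (z t - y t ^ 2) + (y t - Y / W)^2 = 0 := by
    have : w t * ((z t - y t ^ 2) + (y t - Y / W)^2) = 0 := by rw [← h9]; ring
    exact (mul_eq_zero.1 this).resolve_left ht.ne'
  have h11 := h t ht
  have h12 : (y t - Y / W)^2 = 0 := le_antisymm (by linarith) (sq_nonneg _)
  have h13 : y t = Y / W := by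
    have := pow_eq_zero_iff (two_ne_zero) |>.1 h12
    linarith
  refine ⟨h13, ?_⟩
  rw [← h13]; linarith

/-! ### Lower bound on the number of states -/

open Classical in
/-- weights of the level successors -/
noncomputable def wt (s : M.S) (N : Set M.S) (t : M.S) : ℝ := if t ∈ N then M.P s t else 0

noncomputable def yv (t : M.S) : ℝ := M.pr t (M.untilSet (M.L0 ∪ M.L1) M.En)

open Classical in
noncomputable def zv (t : M.S) : ℝ :=
  if t ∈ M.En then 1 else if t ∈ M.L0 then 1 - 4 * M.pr t (M.nextSet M.B) else 1 - 4 * M.pr t (M.nextSet M.A)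

lemma wt_nonneg (s : M.S) (N : Set M.S) (t : M.S) : 0 ≤ M.wt s N t := by
  unfold wt; split_ifs
  · exact M.nonneg s t
  · exact le_rfl

lemma hasSum_wt (s : M.S) (N : Set M.S) : HasSum (M.wt s N) (M.pr s (M.nextSet N)) := by
  have := M.hasSum_next s N
  convert this using 2 with t
  unfold wt; split_ifs <;> simp

lemma P_eq_zero_of_next {s : M.S} {N : Set M.S} (h : M.pr s (M.nextSet N) = 0) {t : M.S} (ht : t ∈ N) :
    M.P s t = 0 := by
  have h1 := M.hasSum_wt s N
  rw [h] at h1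
  have h2 := (hasSum_zero_iff_of_nonneg (M.wt_nonneg s N)).1 h1
  have h3 := congrFun h2 t
  simpa [wt, ht] using h3

lemma disj_AB : Disjoint M.A M.B := by
  rw [Set.disjoint_left]
  rintro t ⟨h1, -⟩ ⟨-, -, -, -, h2⟩
  exact h2 h1

lemma pr_next_add (s : M.S) {X Y : Set M.S} (h : Disjoint X Y) :
    M.pr s (M.nextSet (X ∪ Y)) = M.pr s (M.nextSet X) + M.pr s (M.nextSet Y) := by
  refine (M.hasSum_wt s (X ∪ Y)).unique ?_
  refine hasSum_of_eq ((M.hasSum_wt s X).add (M.hasSum_wt s Y)) (fun t => ?_)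
  unfold wt
  by_cases hX : t ∈ X
  · have hY : t ∉ Y := fun hY => (Set.disjoint_left.1 h) hX hY
    simp [hX, hY]
  · by_cases hY : t ∈ Y <;> simp [hX, hY]

/-- the balance equation coming from c3 and c4 -/
lemma Con.balance {z h e : ℝ} {L L' own oth : Set M.S} {s : M.S} (hc : M.Con z h (1/4) e L L' own oth s)
    (hd : Disjoint own oth) :
    M.pr s (M.nextSet own) = 1/2 - 2 * M.pr s (M.nextSet oth) := by
  have h3 := hc.c3
  have h4 := hc.c4
  rw [M.pr_next_add s (hd.mono_left Set.inter_subset_left)] at h3 h4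
  have h5 : M.pr s (M.nextSet own) = M.pr s (M.nextSet (own ∩ M.C)) + M.pr s (M.nextSet (own ∩ M.Cᶜ)) := by
    rw [← M.pr_next_add s, Set.inter_union_compl]
    exact (disjoint_compl_right.mono Set.inter_subset_right Set.inter_subset_right)
  linarith

open Classical in
lemma pr_untilLe_one (s : M.S) (X Y : Set M.S) :
    M.pr s (M.untilLeSet 1 X Y) = if s ∈ Y then 1 else if s ∈ X then M.pr s (M.nextSet Y) else 0 := by
  split_ifs with h1 h2
  · exact M.pr_untilLe_of_mem s 1 X Y h1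
  · refine (M.hasSum_untilLe s 0 X Y h1 h2).unique ?_
    convert M.hasSum_next s Y using 3 with t
    split_ifs with h3
    · exact M.pr_untilLe_of_mem t 0 X Y h3
    · exact M.pr_untilLe_zero t X Y h3
  · exact M.pr_untilLe_of_notMem s 1 X Y h1 h2

/-- the two step event -/
lemma hasSum_untilLe_two (s : M.S) (X Y : Set M.S) (h1 : s ∉ Y) (h2 : s ∈ X) (hd : Disjoint X Y) :
    HasSum (fun t => M.wt s X t * M.pr t (M.nextSet Y)) (M.pr s (M.untilLeSet 2 X Y) - M.pr s (M.nextSet Y)) := by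
  have h3 := (M.hasSum_untilLe s 1 X Y h1 h2).sub (M.hasSum_wt s Y)
  refine hasSum_of_eq h3 (fun t => ?_)
  rw [pr_untilLe_one]
  unfold wt
  by_cases hY : t ∈ Y
  · have hX : t ∉ X := fun hX => (Set.disjoint_left.1 hd) hX hY
    simp [hX, hY]
  · by_cases hX : t ∈ X
    · simp [hX, hY]
    · simp [hX, hY]

/-- the level states -/
def Lev : Set M.S := M.L0 ∪ M.L1 ∪ M.En

lemma yv_En {t : M.S} (h : t ∈ M.En) : M.yv t = 1 := M.pr_until_of_mem t _ _ h
lemma zv_En {t : M.S} (h : t ∈ M.En) : M.zv t = 1 := by simp [zv, h]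
lemma yv_of_notMem {t : M.S} (h : t ∉ M.Lev) : M.yv t = 0 := by
  apply M.pr_until_of_notMem
  · exact fun h1 => h (Or.inr h1)
  · exact fun h1 => h (Or.inl h1)

lemma not_En_of_L0 {t : M.S} (h : t ∈ M.L0) : t ∉ M.En := fun h1 => h1.2.1 h
lemma not_En_of_L1 {t : M.S} (h : t ∈ M.L1) : t ∉ M.En := fun h1 => h1.2.2 h.1
lemma not_L0_of_L1 {t : M.S} (h : t ∈ M.L1) : t ∉ M.L0 := h.2
lemma zv_L0 {t : M.S} (h : t ∈ M.L0) : M.zv t = 1 - 4 * M.pr t (M.nextSet M.B) := by
  simp [zv, h, M.not_En_of_L0 h]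
lemma zv_L1 {t : M.S} (h : t ∈ M.L1) : M.zv t = 1 - 4 * M.pr t (M.nextSet M.A) := by
  simp [zv, M.not_L0_of_L1 h, M.not_En_of_L1 h]

/-- The two averaging identities at a level state. -/
lemma level_sums {s : M.S} {L L' own oth : Set M.S} (hs : s ∈ L) (hLs : L ∪ L' = M.L0 ∪ M.L1)
    (hLE : Disjoint L M.En)
    (hown : Disjoint (L ∪ L') own) (hoo : Disjoint own oth)
    (hz : M.zv s = 1 - 4 * M.pr s (M.nextSet oth)) (hz' : ∀ t ∈ L', M.zv t = 1 - 4 * M.pr t (M.nextSet own))
    (hc : M.Con 0 (1/2) (1/4) (1/8) L L' own oth s) :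
    HasSum (M.wt s (L' ∪ M.En)) (1/2) ∧
    HasSum (fun t => M.wt s (L' ∪ M.En) t * M.yv t) (M.yv s) ∧
    HasSum (fun t => M.wt s (L' ∪ M.En) t * M.zv t) (2 * M.zv s) := by
  have hP : ∀ t ∈ L, M.P s t = 0 := fun t ht => M.P_eq_zero_of_next hc.c2 ht
  have hW : HasSum (M.wt s (L' ∪ M.En)) (1/2) := by
    have := M.hasSum_wt s (L' ∪ M.En)
    rwa [hc.c1] at this
  refine ⟨hW, ?_, ?_⟩
  · have h1 : s ∉ M.En := fun h => (Set.disjoint_left.1 hLE) hs h
    have h2 : s ∈ M.L0 ∪ M.L1 := by rw [← hLs]; exact Or.inl hs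
    have h3 := M.hasSum_until s (M.L0 ∪ M.L1) M.En h1 h2
    refine hasSum_of_eq h3 (fun t => ?_)
    unfold wt
    by_cases h4 : t ∈ L' ∪ M.En
    · simp [h4, yv]
    · by_cases h5 : t ∈ L
      · simp [h4, hP t h5]
      · have h6 : M.yv t = 0 := by
          apply M.yv_of_notMem
          rintro (h7 | h7)
          · rw [← hLs] at h7
            rcases h7 with h7 | h7
            · exact h5 h7
            · exact h4 (Or.inl h7)
          · exact h4 (Or.inr h7)
        have h7 : M.pr t (M.untilSet (M.L0 ∪ M.L1) M.En) = 0 := h6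
        simp [h4, h7]
  · have h1 : s ∉ own := fun h => (Set.disjoint_left.1 hown) (Or.inl hs) h
    have h3 := M.hasSum_untilLe_two s (L ∪ L') own h1 (Or.inl hs) hown
    rw [hc.c5, hc.balance M hoo] at h3
    have h4 := hW.sub (h3.mul_left 4)
    have h5 : (1/2 - 4 * (1/8 - (1/2 - 2 * M.pr s (M.nextSet oth)))) = 2 * M.zv s := by rw [hz]; ring
    rw [h5] at h4
    refine hasSum_of_eq h4 (fun t => ?_)
    unfold wt
    by_cases h6 : t ∈ L
    · simp [hP t h6]
    · by_cases h7 : t ∈ L'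
      · rw [hz' t h7]
        simp [h7]
        ring
      · by_cases h8 : t ∈ M.En
        · simp [h6, h7, h8, M.zv_En h8]
        · simp [h6, h7, h8]


lemma disj_L0_En : Disjoint M.L0 M.En := Set.disjoint_left.2 fun _ h => M.not_En_of_L0 h
lemma disj_L1_En : Disjoint M.L1 M.En := Set.disjoint_left.2 fun _ h => M.not_En_of_L1 h
lemma disj_L_A : Disjoint (M.L0 ∪ M.L1) M.A := by
  rw [Set.disjoint_left]
  rintro t (h | h) ⟨-, h1, h2, -⟩
  · exact h1 h
  · exact h2 h.1
lemma disj_L_B : Disjoint (M.L0 ∪ M.L1) M.B := by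
  rw [Set.disjoint_left]
  rintro t (h | h) ⟨-, h1, h2, -⟩
  · exact h1 h
  · exact h2 h.1

/-- Abbreviation: the safe states for the actual constants. -/
def Sf (p : ℝ) : Set M.S := M.Safe 0 (1/2) (1/4) (1/8) p

lemma Sf_glob {p : ℝ} {s : M.S} (h : s ∈ M.Sf p) : M.Glob 0 (1/2) (1/4) (1/8) p s := by
  by_contra hn
  have h1 : M.pr s (M.untilSet Set.univ {t | ¬ M.Glob 0 (1/2) (1/4) (1/8) p t}) = 0 := h
  rw [M.pr_until_of_mem s _ _ hn] at h1
  exact one_ne_zero h1

lemma Sf_succ {p : ℝ} {s t : M.S} (h : s ∈ M.Sf p) (hst : 0 < M.P s t) : t ∈ M.Sf p := by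
  have h1 : M.pr s (M.untilSet Set.univ {t | ¬ M.Glob 0 (1/2) (1/4) (1/8) p t}) = 0 := h
  have h2 := M.hasSum_until s Set.univ {t | ¬ M.Glob 0 (1/2) (1/4) (1/8) p t}
    (fun h3 => h3 (M.Sf_glob h)) trivial
  rw [h1] at h2
  have h3 := (hasSum_zero_iff_of_nonneg (fun t => mul_nonneg (M.nonneg s t) (M.pr_nonneg t _))).1 h2
  have h4 : M.P s t * M.pr t (M.untilSet Set.univ {t | ¬ M.Glob 0 (1/2) (1/4) (1/8) p t}) = 0 := congrFun h3 t
  exact (mul_eq_zero.1 h4).resolve_left hst.ne'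

/-- the next level sets -/
lemma level_data {p : ℝ} {s : M.S} (h : s ∈ M.Sf p) (hL : s ∈ M.L0 ∪ M.L1) :
    ∃ N : Set M.S, N ⊆ M.Lev ∧ HasSum (M.wt s N) (1/2) ∧ HasSum (fun t => M.wt s N t * M.yv t) (M.yv s) ∧
      HasSum (fun t => M.wt s N t * M.zv t) (2 * M.zv s) := by
  rcases hL with hL | hL
  · have hc := (M.Sf_glob h).g0 hL
    refine ⟨M.L1 ∪ M.En, ?_, ?_⟩
    · rintro t (ht | ht)
      · exact Or.inl (Or.inr ht)
      · exact Or.inr ht
    · exact M.level_sums hL rfl M.disj_L0_En M.disj_L_A M.disj_AB (M.zv_L0 hL) (fun t ht => M.zv_L1 ht) hc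
  · have hc := (M.Sf_glob h).g1 hL
    refine ⟨M.L0 ∪ M.En, ?_, ?_⟩
    · rintro t (ht | ht)
      · exact Or.inl (Or.inl ht)
      · exact Or.inr ht
    · exact M.level_sums hL (Set.union_comm _ _) M.disj_L1_En (by rw [Set.union_comm]; exact M.disj_L_B)
        M.disj_AB.symm (M.zv_L1 hL) (fun t ht => M.zv_L0 ht) hc

lemma wt_pos {s t : M.S} {N : Set M.S} (h : 0 < M.wt s N t) : t ∈ N ∧ 0 < M.P s t := by
  unfold wt at h
  split_ifs at h with h1
  · exact ⟨h1, h⟩
  · exact absurd h (lt_irrefl 0)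

lemma yv_nonneg (t : M.S) : 0 ≤ M.yv t := M.pr_nonneg t _
lemma yv_le_one (t : M.S) : M.yv t ≤ 1 := M.pr_le_one t _

lemma zv_nonneg {p : ℝ} {s : M.S} (h : s ∈ M.Sf p) (hL : s ∈ M.Lev) : 0 ≤ M.zv s := by
  rcases hL with (hL | hL) | hL
  · have hc := ((M.Sf_glob h).g0 hL).balance M M.disj_AB
    rw [M.zv_L0 hL]
    have := M.pr_nonneg s (M.nextSet M.A)
    linarith
  · have hc := ((M.Sf_glob h).g1 hL).balance M M.disj_AB.symm
    rw [M.zv_L1 hL]
    have := M.pr_nonneg s (M.nextSet M.B)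
    linarith
  · rw [M.zv_En hL]; exact zero_le_one

lemma sq_le_aux {p : ℝ} (k : ℕ) : ∀ s ∈ M.Sf p, s ∈ M.Lev → M.yv s ^ 2 ≤ M.zv s + (1/4)^k := by
  induction k with
  | zero =>
    intro s hs hL
    have h1 := M.zv_nonneg hs hL
    have h2 : M.yv s ^ 2 ≤ 1 := pow_le_one₀ (M.yv_nonneg s) (M.yv_le_one s)
    simp only [pow_zero]
    linarith
  | succ k ih =>
    intro s hs hL
    by_cases hE : s ∈ M.En
    · rw [M.yv_En hE, M.zv_En hE]
      have : (0:ℝ) ≤ (1/4)^(k+1) := by positivity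
      linarith
    · have hL' : s ∈ M.L0 ∪ M.L1 := hL.resolve_right hE
      obtain ⟨N, hN, h1, h2, h3⟩ := M.level_data hs hL'
      have h4 := jensen (M.wt_nonneg s N) (by norm_num) h1 h2 h3 (ε := (1/4)^k) (fun t ht => by
        obtain ⟨h5, h6⟩ := M.wt_pos ht
        exact ih t (M.Sf_succ hs h6) (hN h5))
      have h5 : ((1:ℝ)/4)^(k+1) = (1/4)^k * (1/4) := pow_succ _ _
      rw [h5]
      linarith

lemma sq_le {p : ℝ} {s : M.S} (hs : s ∈ M.Sf p) (hL : s ∈ M.Lev) : M.yv s ^ 2 ≤ M.zv s := by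
  have h1 : Filter.Tendsto (fun k : ℕ => M.zv s + (1/4 : ℝ)^k) Filter.atTop (nhds (M.zv s + 0)) :=
    tendsto_const_nhds.add (tendsto_pow_atTop_nhds_zero_of_lt_one (by norm_num) (by norm_num))
  rw [add_zero] at h1
  exact ge_of_tendsto' h1 (fun k => M.sq_le_aux k s hs hL)

lemma exists_pos_of_hasSum {S : Type} {w : S → ℝ} {W : ℝ} (hw : ∀ t, 0 ≤ w t) (h : HasSum w W) (hW : 0 < W) :
    ∃ t, 0 < w t := by
  by_contra hn
  push Not at hn
  have : w = fun _ => 0 := funext fun t => le_antisymm (hn t) (hw t)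
  rw [this] at h
  exact hW.ne' (h.unique hasSum_zero)

/-- One step along the curve. -/
lemma step_curve {p Y : ℝ} {s : M.S} (hs : s ∈ M.Sf p) (hL : s ∈ M.Lev) (hE : s ∉ M.En)
    (hy : M.yv s = Y) (hz : M.zv s = Y ^ 2) :
    ∃ t ∈ M.Sf p, t ∈ M.Lev ∧ M.yv t = 2 * Y ∧ M.zv t = (2 * Y) ^ 2 := by
  have hL' : s ∈ M.L0 ∪ M.L1 := hL.resolve_right hE
  obtain ⟨N, hN, h1, h2, h3⟩ := M.level_data hs hL'
  obtain ⟨t, ht⟩ := exists_pos_of_hasSum (M.wt_nonneg s N) h1 (by norm_num)
  have h4 := jensen_eq (M.wt_nonneg s N) (by norm_num) h1 h2 h3 (fun t ht => by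
    obtain ⟨h5, h6⟩ := M.wt_pos ht
    exact M.sq_le (M.Sf_succ hs h6) (hN h5)) (by rw [hy, hz]; ring) t ht
  obtain ⟨h5, h6⟩ := M.wt_pos ht
  rw [hy] at h4
  have h7 : Y / (1/2) = 2 * Y := by ring
  rw [h7] at h4
  exact ⟨t, M.Sf_succ hs h6, hN h5, h4⟩

/-- The first step. -/
lemma first_step {p : ℝ} {s : M.S} (hm : M.Main 0 1 (1/2) (1/4) (1/8) (1/16) p s) :
    ∃ t ∈ M.Sf p, t ∈ M.Lev ∧ M.yv t = 4 * p ∧ M.zv t = (4 * p) ^ 2 := by
  have hsafe : ∀ t, 0 < M.P s t → t ∈ M.Sf p := by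
    intro t ht
    by_contra hn
    have h1 : M.pr s (M.nextSet (M.Sf p)ᶜ) = 0 := by
      have h2 : M.pr s (M.nextSet (M.Sf p ∪ (M.Sf p)ᶜ)) = _ := M.pr_next_add s disjoint_compl_right
      rw [Set.union_compl_self] at h2
      have h3 : M.pr s (M.nextSet Set.univ) = 1 := M.pr_of_forall s fun ω _ => trivial
      have h4 : M.pr s (M.nextSet (M.Sf p)) = 1 := hm.m7
      linarith
    exact ht.ne' (M.P_eq_zero_of_next h1 hn)
  have hW : HasSum (M.wt s (M.L0 ∪ M.En)) (1/4) := by
    have := M.hasSum_wt s (M.L0 ∪ M.En)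
    rwa [hm.m3] at this
  have hP : ∀ t ∈ M.L1, M.P s t = 0 := fun t ht => M.P_eq_zero_of_next hm.m2 (Or.inl ht)
  have hPB : ∀ t ∈ M.B, M.P s t = 0 := fun t ht => M.P_eq_zero_of_next hm.m2 (Or.inr ht)
  have hy : HasSum (fun t => M.wt s (M.L0 ∪ M.En) t * M.yv t) p := by
    have h3 := M.hasSum_until s (M.L0 ∪ M.L1) M.En (M.not_En_of_L1 hm.m1) (Or.inr hm.m1)
    rw [hm.m4] at h3
    refine hasSum_of_eq h3 (fun t => ?_)
    unfold wt
    by_cases h4 : t ∈ M.L0 ∪ M.En
    · simp [h4, yv]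
    · by_cases h5 : t ∈ M.L1
      · simp [h4, hP t h5]
      · have h6 : M.yv t = 0 := by
          apply M.yv_of_notMem
          rintro ((h7 | h7) | h7)
          · exact h4 (Or.inl h7)
          · exact h5 h7
          · exact h4 (Or.inr h7)
        have h7 : M.pr t (M.untilSet (M.L0 ∪ M.L1) M.En) = 0 := h6
        simp [h4, h7]
  have hdA : Disjoint M.A M.L0 := (M.disj_L_A.mono_left Set.subset_union_left).symm
  have hz : HasSum (fun t => M.wt s (M.L0 ∪ M.En) t * M.zv t) (4 * p ^ 2) := by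
    have hsB : s ∉ M.B := fun h => (Set.disjoint_left.1 M.disj_L_B) (Or.inr hm.m1) h
    have hd : Disjoint (M.L0 ∪ M.L1 ∪ M.A) M.B := Disjoint.sup_left M.disj_L_B M.disj_AB
    have h3 := M.hasSum_untilLe_two s (M.L0 ∪ M.L1 ∪ M.A) M.B hsB (Or.inl (Or.inr hm.m1)) hd
    have hB0 : M.pr s (M.nextSet M.B) = 0 := by
      have h4 := M.hasSum_wt s M.B
      have h5 : M.wt s M.B = fun _ => 0 := by
        ext t
        unfold wt
        split_ifs with h6
        · exact hPB t h6
        · rfl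
      rw [h5] at h4
      exact h4.unique hasSum_zero
    rw [hm.m6, hB0] at h3
    have hA := M.hasSum_wt s M.A
    rw [hm.m5] at hA
    have h4 := hW.sub ((h3.sub (hA.mul_right p)).mul_left 4)
    have h5 : (1/4 - 4 * (1/16 - 0 - p * p)) = 4 * p ^ 2 := by ring
    rw [h5] at h4
    refine hasSum_of_eq h4 (fun t => ?_)
    rcases (M.nonneg s t).eq_or_lt with h6 | h6
    · unfold wt; simp [← h6]
    · have hst := hsafe t h6
      have hg := M.Sf_glob hst
      unfold wt
      by_cases h7 : t ∈ M.A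
      · have h8 := hg.g2 h7
        have h9 : t ∉ M.L0 := fun h => (Set.disjoint_left.1 hdA) h7 h
        have h10 : t ∉ M.En := fun h => h7.2.2.2 h.1
        simp [h7, h9, h10, h8]
      · by_cases h8 : t ∈ M.L1
        · rw [hP t h8] at h6; exact absurd h6 (lt_irrefl 0)
        · by_cases h9 : t ∈ M.L0
          · rw [M.zv_L0 h9]
            simp [h7, h8, h9]
            ring
          · by_cases h10 : t ∈ M.En
            · simp [h7, h8, h9, h10, M.zv_En h10]
            · simp [h7, h8, h9, h10]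
  have hN : M.L0 ∪ M.En ⊆ M.Lev := by
    rintro t (ht | ht)
    · exact Or.inl (Or.inl ht)
    · exact Or.inr ht
  obtain ⟨t, ht⟩ := exists_pos_of_hasSum (M.wt_nonneg s (M.L0 ∪ M.En)) hW (by norm_num)
  have h4 := jensen_eq (M.wt_nonneg s (M.L0 ∪ M.En)) (by norm_num) hW hy hz (fun t ht => by
    obtain ⟨h5, h6⟩ := M.wt_pos ht
    exact M.sq_le (hsafe t h6) (hN h5)) (by ring) t ht
  obtain ⟨h5, h6⟩ := M.wt_pos ht
  have h7 : p / (1/4) = 4 * p := by ring
  rw [h7] at h4
  exact ⟨t, hsafe t h6, hN h5, h4⟩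

/-- All the values `2^{-(n-m)}` occur. -/
lemma exists_value {n : ℕ} {s : M.S} (hm : M.Main 0 1 (1/2) (1/4) (1/8) (1/16) ((1/2)^(n+2)) s) (m : ℕ) (hmn : m ≤ n) :
    ∃ t ∈ M.Sf ((1/2)^(n+2)), t ∈ M.Lev ∧ M.yv t = (1/2)^(n-m) ∧ M.zv t = ((1/2)^(n-m)) ^ 2 := by
  induction m with
  | zero =>
    obtain ⟨t, h1, h2, h3, h4⟩ := M.first_step hm
    have h5 : (4 : ℝ) * (1/2)^(n+2) = (1/2)^(n-0) := by
      rw [Nat.sub_zero, pow_add]; norm_num; ring
    rw [h5] at h3 h4
    exact ⟨t, h1, h2, h3, h4⟩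
  | succ m ih =>
    obtain ⟨t, h1, h2, h3, h4⟩ := ih (by omega)
    have h5 : t ∉ M.En := by
      intro h5
      rw [M.yv_En h5] at h3
      have h6 : n - m = (n - (m+1)) + 1 := by omega
      rw [h6, pow_succ] at h3
      have h7 : (1/2 : ℝ)^(n-(m+1)) ≤ 1 := pow_le_one₀ (by norm_num) (by norm_num)
      linarith
    obtain ⟨u, h6, h7, h8, h9⟩ := M.step_curve h1 h2 h5 h3 h4
    have h10 : 2 * (1/2 : ℝ)^(n-m) = (1/2)^(n-(m+1)) := by
      have h6 : n - m = (n - (m+1)) + 1 := by omega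
      rw [h6, pow_succ]; ring
    rw [h10] at h8 h9
    exact ⟨u, h6, h7, h8, h9⟩

theorem card_ge {n : ℕ} {s : M.S} (hm : M.Main 0 1 (1/2) (1/4) (1/8) (1/16) ((1/2)^(n+2)) s) :
    (n : ℕ∞) ≤ ENat.card M.S := by
  have h1 : ∀ m : Fin n, ∃ t : M.S, M.yv t = (1/2)^(n - m.1) := fun m => by
    obtain ⟨t, -, -, h, -⟩ := M.exists_value hm m.1 m.2.le
    exact ⟨t, h⟩
  choose f hf using h1
  have hinj : Function.Injective f := by
    intro a b hab
    have h2 : (1/2 : ℝ)^(n - a.1) = (1/2)^(n - b.1) := by rw [← hf a, ← hf b, hab]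
    have h3 : n - a.1 = n - b.1 := pow_right_injective₀ (by norm_num) (by norm_num) h2
    ext
    have := a.2
    have := b.2
    omega
  have h4 := ENat.card_le_card_of_injective hinj
  simpa using h4

end MarkovChain

/-! ### The finite model -/

/-- The states of the finite model. -/
inductive St (n : ℕ) where
  | start
  | lev (k : Fin (n+1))
  | aC | a | bC | b | dead
  deriving DecidableEq, Fintype

open Classical in
/-- transition probabilities given by a finite list of weighted targets -/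
noncomputable def listP {S : Type} (l : List (S × ℝ)) (t : S) : ℝ :=
  (l.map (fun q => if t = q.1 then q.2 else 0)).sum

lemma listP_nonneg {S : Type} {l : List (S × ℝ)} (h : ∀ q ∈ l, 0 ≤ q.2) (t : S) : 0 ≤ listP l t := by
  unfold listP
  apply List.sum_nonneg
  intro x hx
  rw [List.mem_map] at hx
  obtain ⟨q, hq, rfl⟩ := hx
  split_ifs
  · exact h q hq
  · exact le_rfl

lemma hasSum_listP {S : Type} (l : List (S × ℝ)) (f : S → ℝ) :
    HasSum (fun t => listP l t * f t) ((l.map (fun q => q.2 * f q.1)).sum) := by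
  classical
  induction l with
  | nil => simp [listP]
  | cons q l ih =>
    have h1 : HasSum (fun t => (if t = q.1 then q.2 * f q.1 else 0)) (q.2 * f q.1) :=
      hasSum_ite_eq q.1 (q.2 * f q.1)
    have h2 := h1.add ih
    rw [List.map_cons, List.sum_cons]
    refine MarkovChain.hasSum_of_eq h2 (fun t => ?_)
    simp only [listP, List.map_cons, List.sum_cons, add_mul]
    congr 1
    by_cases h : t = q.1
    · simp [h]
    · simp [h]

lemma listP_eq_zero {S : Type} {l : List (S × ℝ)} {t : S} (h : ∀ q ∈ l, t ≠ q.1) : listP l t = 0 := by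
  classical
  unfold listP
  apply List.sum_eq_zero
  intro x hx
  rw [List.mem_map] at hx
  obtain ⟨q, hq, rfl⟩ := hx
  rw [if_neg (h q hq)]

/-- transitions -/
noncomputable def trans (n : ℕ) : St n → List (St n × ℝ)
  | .start => [(.lev 0, 1/4), (.a, (1/2)^(n+2)), (.dead, 3/4 - (1/2)^(n+2))]
  | .lev k =>
    if h : k.1 < n then
      if k.1 % 2 = 0 then
        [(.lev ⟨k.1+1, by omega⟩, 1/2), (.aC, (1/4)^(n-k.1)/4), (.a, (1/4)^(n-k.1)/4),
          (.b, 1/4 - (1/4)^(n-k.1)/4), (.dead, 1/4 - (1/4)^(n-k.1)/4)]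
      else
        [(.lev ⟨k.1+1, by omega⟩, 1/2), (.bC, (1/4)^(n-k.1)/4), (.b, (1/4)^(n-k.1)/4),
          (.a, 1/4 - (1/4)^(n-k.1)/4), (.dead, 1/4 - (1/4)^(n-k.1)/4)]
    else [(.dead, 1)]
  | .aC => [(.b, (1/2)^(n+2)), (.dead, 1 - (1/2)^(n+2))]
  | .a => [(.b, (1/2)^(n+2)), (.dead, 1 - (1/2)^(n+2))]
  | .bC => [(.dead, 1)]
  | .b => [(.dead, 1)]
  | .dead => [(.dead, 1)]

/-- labels -/
def lab (n : ℕ) : St n → Set ℕ
  | .start => {1}
  | .lev k => if k.1 < n then (if k.1 % 2 = 0 then {0} else {1}) else {2}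
  | .aC => {3, 5}
  | .a => {3}
  | .bC => {4, 5}
  | .b => {4}
  | .dead => ∅

lemma half_pow_le (n : ℕ) : ((1:ℝ)/2)^(n+2) ≤ 1/4 := by
  rw [pow_add]
  have : ((1:ℝ)/2)^n ≤ 1 := pow_le_one₀ (by norm_num) (by norm_num)
  norm_num
  linarith

lemma quarter_pow_le (m : ℕ) : ((1:ℝ)/4)^m ≤ 1 := pow_le_one₀ (by norm_num) (by norm_num)

lemma trans_nonneg (n : ℕ) (s : St n) : ∀ q ∈ trans n s, 0 ≤ q.2 := by
  have h1 := half_pow_le n
  have h2 : (0:ℝ) ≤ (1/2)^(n+2) := by positivity
  intro q hq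
  cases s with
  | start =>
    simp only [trans, List.mem_cons, List.not_mem_nil, or_false] at hq
    rcases hq with rfl | rfl | rfl <;> simp only <;> linarith
  | lev k =>
    have h3 := quarter_pow_le (n - k.1)
    have h4 : (0:ℝ) ≤ (1/4)^(n-k.1) := by positivity
    simp only [trans] at hq
    split_ifs at hq
    · simp only [List.mem_cons, List.not_mem_nil, or_false] at hq
      rcases hq with rfl | rfl | rfl | rfl | rfl <;> simp only <;> linarith
    · simp only [List.mem_cons, List.not_mem_nil, or_false] at hq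
      rcases hq with rfl | rfl | rfl | rfl | rfl <;> simp only <;> linarith
    · simp only [List.mem_cons, List.not_mem_nil, or_false] at hq
      rcases hq with rfl; norm_num
  | aC =>
    simp only [trans, List.mem_cons, List.not_mem_nil, or_false] at hq
    rcases hq with rfl | rfl <;> simp only <;> linarith
  | a =>
    simp only [trans, List.mem_cons, List.not_mem_nil, or_false] at hq
    rcases hq with rfl | rfl <;> simp only <;> linarith
  | bC =>
    simp only [trans, List.mem_cons, List.not_mem_nil, or_false] at hq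
    rcases hq with rfl; norm_num
  | b =>
    simp only [trans, List.mem_cons, List.not_mem_nil, or_false] at hq
    rcases hq with rfl; norm_num
  | dead =>
    simp only [trans, List.mem_cons, List.not_mem_nil, or_false] at hq
    rcases hq with rfl; norm_num

lemma trans_sum (n : ℕ) (s : St n) : ((trans n s).map (fun q => q.2)).sum = 1 := by
  cases s with
  | lev k =>
    simp only [trans]
    split_ifs <;> simp <;> ring
  | _ => simp [trans] <;> ring

/-- The finite model. -/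
noncomputable def chain (n : ℕ) : MarkovChain where
  S := St n
  countable := inferInstance
  nonempty := ⟨.start⟩
  P s t := listP (trans n s) t
  nonneg s t := listP_nonneg (trans_nonneg n s) t
  hasSum s := by
    have h := hasSum_listP (trans n s) (fun _ => 1)
    simp only [mul_one] at h
    rwa [trans_sum] at h
  v := lab n


section chainFacts

/-- probability of `X S` in the finite model -/
noncomputable def prn (n : ℕ) (s : St n) (X : Set (St n)) : ℝ := (chain n).pr s ((chain n).nextSet X)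
/-- probability of `X U^{≤2} Y` in the finite model -/
noncomputable def prt (n : ℕ) (s : St n) (X Y : Set (St n)) : ℝ := (chain n).pr s ((chain n).untilLeSet 2 X Y)
/-- probability of `X U Y` in the finite model -/
noncomputable def pru (n : ℕ) (s : St n) (X Y : Set (St n)) : ℝ := (chain n).pr s ((chain n).untilSet X Y)

open Classical in
lemma chain_next (n : ℕ) (s : St n) (X : Set (St n)) :
    prn n s X = ((trans n s).map (fun q => q.2 * (if q.1 ∈ X then 1 else 0))).sum :=
  ((chain n).hasSum_next s X).unique (hasSum_listP (trans n s) (fun t => if t ∈ X then 1 else 0))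

open Classical in
lemma chain_two (n : ℕ) (s : St n) (X Y : Set (St n)) (h1 : s ∉ Y) (h2 : s ∈ X) (hd : Disjoint X Y) :
    prt n s X Y = prn n s Y +
      ((trans n s).map (fun q => q.2 * (if q.1 ∈ X then prn n q.1 Y else 0))).sum := by
  have h3 := (chain n).hasSum_untilLe_two s X Y h1 h2 hd
  have h4 := hasSum_listP (trans n s) (fun t => if t ∈ X then prn n t Y else 0)
  have h5 : HasSum (fun t => (chain n).wt s X t * (chain n).pr t ((chain n).nextSet Y))
      ((trans n s).map (fun q => q.2 * (if q.1 ∈ X then prn n q.1 Y else 0))).sum := by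
    refine MarkovChain.hasSum_of_eq h4 (fun t => ?_)
    unfold MarkovChain.wt
    change (if t ∈ X then listP (trans n s) t else 0) * (prn n t Y) =
      listP (trans n s) t * (if t ∈ X then prn n t Y else 0)
    by_cases ht : t ∈ X
    · rw [if_pos ht, if_pos ht]
    · rw [if_neg ht, if_neg ht, zero_mul, mul_zero]
  have h6 := h3.unique h5
  unfold prt prn at *
  linarith

lemma chain_until (n : ℕ) (s : St n) (X Y : Set (St n)) (h1 : s ∉ Y) (h2 : s ∈ X) :
    pru n s X Y = ((trans n s).map (fun q => q.2 * pru n q.1 X Y)).sum :=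
  ((chain n).hasSum_until s X Y h1 h2).unique (hasSum_listP (trans n s) _)

variable (n : ℕ)

def sL0 : Set (St n) := {s | 0 ∈ lab n s}
def sL1 : Set (St n) := {s | 1 ∈ lab n s ∧ 0 ∉ lab n s}
def sEn : Set (St n) := {s | 2 ∈ lab n s ∧ 0 ∉ lab n s ∧ 1 ∉ lab n s}
def sA : Set (St n) := {s | 3 ∈ lab n s ∧ 0 ∉ lab n s ∧ 1 ∉ lab n s ∧ 2 ∉ lab n s}
def sB : Set (St n) := {s | 4 ∈ lab n s ∧ 0 ∉ lab n s ∧ 1 ∉ lab n s ∧ 2 ∉ lab n s ∧ 3 ∉ lab n s}
def sC : Set (St n) := {s | 5 ∈ lab n s}

lemma mL0 (s : St n) : s ∈ sL0 n ↔ 0 ∈ lab n s := Iff.rfl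
lemma mL1 (s : St n) : s ∈ sL1 n ↔ 1 ∈ lab n s ∧ 0 ∉ lab n s := Iff.rfl
lemma mEn (s : St n) : s ∈ sEn n ↔ 2 ∈ lab n s ∧ 0 ∉ lab n s ∧ 1 ∉ lab n s := Iff.rfl
lemma mA (s : St n) : s ∈ sA n ↔ 3 ∈ lab n s ∧ 0 ∉ lab n s ∧ 1 ∉ lab n s ∧ 2 ∉ lab n s := Iff.rfl
lemma mB (s : St n) : s ∈ sB n ↔ 4 ∈ lab n s ∧ 0 ∉ lab n s ∧ 1 ∉ lab n s ∧ 2 ∉ lab n s ∧ 3 ∉ lab n s := Iff.rfl
lemma mC (s : St n) : s ∈ sC n ↔ 5 ∈ lab n s := Iff.rfl

/-- the probability of the other exit, along the levels -/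
lemma next_A_lev (k : Fin (n+1)) (h : k.1 < n) (hk : ¬ k.1 % 2 = 0) :
    prn n (.lev k) (sA n) = 1/4 - (1/4)^(n-k.1)/4 := by
  rw [chain_next]
  have : ∀ j : Fin (n+1), ¬ (St.lev j ∈ sA n) := by
    intro j
    rw [mA]
    simp only [lab]
    split_ifs <;> simp
  simp [trans, h, hk, this, mA, lab]

lemma next_B_lev (k : Fin (n+1)) (h : k.1 < n) (hk : k.1 % 2 = 0) :
    prn n (.lev k) (sB n) = 1/4 - (1/4)^(n-k.1)/4 := by
  rw [chain_next]
  have : ∀ j : Fin (n+1), ¬ (St.lev j ∈ sB n) := by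
    intro j
    rw [mB]
    simp only [lab]
    split_ifs <;> simp
  simp [trans, h, hk, this, mB, lab]

lemma lev_even (k : Fin (n+1)) (h : k.1 < n) (hk : k.1 % 2 = 0) : St.lev k ∈ sL0 n := by
  rw [mL0]; simp [lab, h, hk]
lemma lev_odd (k : Fin (n+1)) (h : k.1 < n) (hk : ¬ k.1 % 2 = 0) : St.lev k ∈ sL1 n := by
  rw [mL1]; simp [lab, h, hk]
lemma lev_last (k : Fin (n+1)) (h : ¬ k.1 < n) : St.lev k ∈ sEn n := by
  rw [mEn]; simp [lab, h]

lemma yv_lev (m : ℕ) : ∀ (k : Fin (n+1)), n - k.1 = m → pru n (.lev k) (sL0 n ∪ sL1 n) (sEn n) = (1/2)^m := by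
  induction m with
  | zero =>
    intro k hk
    have : pru n (.lev k) (sL0 n ∪ sL1 n) (sEn n) = 1 := (chain n).yv_En (lev_last n k (by omega))
    rw [this, pow_zero]
  | succ m ih =>
    intro k hk
    have h : k.1 < n := by omega
    have hs : St.lev k ∈ sL0 n ∪ sL1 n := by
      by_cases hp : k.1 % 2 = 0
      · exact Or.inl (lev_even n k h hp)
      · exact Or.inr (lev_odd n k h hp)
    have hs' : St.lev k ∉ sEn n := by
      rcases hs with h1 | h1
      · exact (chain n).not_En_of_L0 h1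
      · exact (chain n).not_En_of_L1 h1
    rw [chain_until n (St.lev k) _ _ hs' hs]
    have ih' := ih ⟨k.1+1, by omega⟩ (by simp only; omega)
    have z1 : pru n .aC (sL0 n ∪ sL1 n) (sEn n) = 0 :=
      (chain n).pr_until_of_notMem _ _ _ (by change ¬ (_ ∈ sEn n); simp [mEn, lab]) (by change ¬ (_ ∈ (sL0 n ∪ sL1 n)); simp [mL0, mL1, lab])
    have z2 : pru n .a (sL0 n ∪ sL1 n) (sEn n) = 0 :=
      (chain n).pr_until_of_notMem _ _ _ (by change ¬ (_ ∈ sEn n); simp [mEn, lab]) (by change ¬ (_ ∈ (sL0 n ∪ sL1 n)); simp [mL0, mL1, lab])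
    have z3 : pru n .bC (sL0 n ∪ sL1 n) (sEn n) = 0 :=
      (chain n).pr_until_of_notMem _ _ _ (by change ¬ (_ ∈ sEn n); simp [mEn, lab]) (by change ¬ (_ ∈ (sL0 n ∪ sL1 n)); simp [mL0, mL1, lab])
    have z4 : pru n .b (sL0 n ∪ sL1 n) (sEn n) = 0 :=
      (chain n).pr_until_of_notMem _ _ _ (by change ¬ (_ ∈ sEn n); simp [mEn, lab]) (by change ¬ (_ ∈ (sL0 n ∪ sL1 n)); simp [mL0, mL1, lab])
    have z5 : pru n .dead (sL0 n ∪ sL1 n) (sEn n) = 0 :=
      (chain n).pr_until_of_notMem _ _ _ (by change ¬ (_ ∈ sEn n); simp [mEn, lab]) (by change ¬ (_ ∈ (sL0 n ∪ sL1 n)); simp [mL0, mL1, lab])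
    by_cases hp : k.1 % 2 = 0
    · simp only [trans, h, hp, dite_true, if_true, List.map_cons, List.map_nil, List.sum_cons, List.sum_nil,
        z1, z2, z4, z5, ih']
      ring
    · simp only [trans, h, hp, dite_true, if_false, List.map_cons, List.map_nil, List.sum_cons, List.sum_nil,
        z2, z3, z4, z5, ih']
      ring

lemma pow_aux (k : ℕ) (h : k < n) : (1/4 : ℝ)^(n-(k+1)) = (1/4)^(n-k) * 4 := by
  have : n - k = (n - (k+1)) + 1 := by omega
  rw [this, pow_succ]; ring

lemma con_even (k : Fin (n+1)) (h : k.1 < n) (hk : k.1 % 2 = 0) :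
    (chain n).Con 0 (1/2) (1/4) (1/8) (chain n).L0 (chain n).L1 (chain n).A (chain n).B (St.lev k) := by
  have hk' : ¬ (k.1 + 1) % 2 = 0 := by omega
  constructor
  · change prn n (.lev k) (sL1 n ∪ sEn n) = _
    rw [chain_next]
    by_cases h1 : k.1 + 1 < n
    · simp [trans, h, hk, mL1, mEn, lab, h1, hk']
    · simp [trans, h, hk, mL1, mEn, lab, h1]
  · change prn n (.lev k) (sL0 n) = _
    rw [chain_next]
    by_cases h1 : k.1 + 1 < n
    · simp [trans, h, hk, mL0, lab, h1, hk']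
    · simp [trans, h, hk, mL0, lab, h1]
  · change prn n (.lev k) ((sA n ∩ sC n) ∪ sB n) = _
    rw [chain_next]
    by_cases h1 : k.1 + 1 < n
    · simp [trans, h, hk, mA, mB, mC, lab, h1, hk']
    · simp [trans, h, hk, mA, mB, mC, lab, h1]
  · change prn n (.lev k) ((sA n ∩ (sC n)ᶜ) ∪ sB n) = _
    rw [chain_next]
    by_cases h1 : k.1 + 1 < n
    · simp [trans, h, hk, mA, mB, mC, lab, h1, hk']
    · simp [trans, h, hk, mA, mB, mC, lab, h1]
  · change prt n (.lev k) (sL0 n ∪ sL1 n) (sA n) = _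
    have hd : Disjoint (sL0 n ∪ sL1 n) (sA n) := (chain n).disj_L_A
    have hs : St.lev k ∈ sL0 n ∪ sL1 n := Or.inl (lev_even n k h hk)
    rw [chain_two n _ _ _ (fun h1 => (Set.disjoint_left.1 hd) hs h1) hs hd, chain_next]
    by_cases h1 : k.1 + 1 < n
    · have h2 := next_A_lev n ⟨k.1+1, by omega⟩ h1 hk'
      simp only at h2
      rw [pow_aux n k.1 h] at h2
      simp [trans, h, hk, mA, mL0, mL1, lab, h1, hk', h2]
      ring
    · have h3 : n - k.1 = 1 := by omega
      simp [trans, h, hk, mA, mL0, mL1, lab, h1, h3]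
      ring

lemma con_odd (k : Fin (n+1)) (h : k.1 < n) (hk : ¬ k.1 % 2 = 0) :
    (chain n).Con 0 (1/2) (1/4) (1/8) (chain n).L1 (chain n).L0 (chain n).B (chain n).A (St.lev k) := by
  have hk' : (k.1 + 1) % 2 = 0 := by omega
  constructor
  · change prn n (.lev k) (sL0 n ∪ sEn n) = _
    rw [chain_next]
    by_cases h1 : k.1 + 1 < n
    · simp [trans, h, hk, mL0, mEn, lab, h1, hk']
    · simp [trans, h, hk, mL0, mEn, lab, h1]
  · change prn n (.lev k) (sL1 n) = _
    rw [chain_next]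
    by_cases h1 : k.1 + 1 < n
    · simp [trans, h, hk, mL1, lab, h1, hk']
    · simp [trans, h, hk, mL1, lab, h1]
  · change prn n (.lev k) ((sB n ∩ sC n) ∪ sA n) = _
    rw [chain_next]
    by_cases h1 : k.1 + 1 < n
    · simp [trans, h, hk, mA, mB, mC, lab, h1, hk']
    · simp [trans, h, hk, mA, mB, mC, lab, h1]
  · change prn n (.lev k) ((sB n ∩ (sC n)ᶜ) ∪ sA n) = _
    rw [chain_next]
    by_cases h1 : k.1 + 1 < n
    · simp [trans, h, hk, mA, mB, mC, lab, h1, hk']
    · simp [trans, h, hk, mA, mB, mC, lab, h1]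
  · change prt n (.lev k) (sL1 n ∪ sL0 n) (sB n) = _
    have hd : Disjoint (sL1 n ∪ sL0 n) (sB n) := by
      rw [Set.union_comm]; exact (chain n).disj_L_B
    have hs : St.lev k ∈ sL1 n ∪ sL0 n := Or.inl (lev_odd n k h hk)
    rw [chain_two n _ _ _ (fun h1 => (Set.disjoint_left.1 hd) hs h1) hs hd, chain_next]
    by_cases h1 : k.1 + 1 < n
    · have h2 := next_B_lev n ⟨k.1+1, by omega⟩ h1 hk'
      simp only at h2
      rw [pow_aux n k.1 h] at h2
      simp [trans, h, hk, mB, mL0, mL1, lab, h1, hk', h2]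
      ring
    · have h3 : n - k.1 = 1 := by omega
      simp [trans, h, hk, mB, mL0, mL1, lab, h1, h3]
      ring

lemma next_a : prn n .a (sB n) = (1/2)^(n+2) := by
  rw [chain_next]; simp [trans, mB, lab]
lemma next_aC : prn n .aC (sB n) = (1/2)^(n+2) := by
  rw [chain_next]; simp [trans, mB, lab]

lemma chain_glob (s : St n) (hs : s ≠ .start) :
    (chain n).Glob 0 (1/2) (1/4) (1/8) ((1/2)^(n+2)) s := by
  constructor
  · intro h
    change s ∈ sL0 n at h
    cases s with
    | lev k =>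
      by_cases h1 : k.1 < n
      · by_cases h2 : k.1 % 2 = 0
        · exact con_even n k h1 h2
        · simp [mL0, lab, h1, h2] at h
      · simp [mL0, lab, h1] at h
    | _ => simp [mL0, lab] at h
  · intro h
    change s ∈ sL1 n at h
    cases s with
    | start => exact absurd rfl hs
    | lev k =>
      by_cases h1 : k.1 < n
      · by_cases h2 : k.1 % 2 = 0
        · simp [mL1, lab, h1, h2] at h
        · exact con_odd n k h1 h2
      · simp [mL1, lab, h1] at h
    | _ => simp [mL1, lab] at h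
  · intro h
    change s ∈ sA n at h
    change prn n s (sB n) = _
    cases s with
    | aC => exact next_aC n
    | a => exact next_a n
    | lev k =>
      by_cases h1 : k.1 < n
      · by_cases h2 : k.1 % 2 = 0
        · simp [mA, lab, h1, h2] at h
        · simp [mA, lab, h1, h2] at h
      · simp [mA, lab, h1] at h
    | _ => simp [mA, lab] at h

lemma trans_ne_start (s : St n) (hs : s ≠ .start) : ∀ q ∈ trans n s, St.start ≠ q.1 := by
  intro q hq
  cases s with
  | start => exact absurd rfl hs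
  | lev k =>
    simp only [trans] at hq
    split_ifs at hq <;> simp only [List.mem_cons, List.not_mem_nil, or_false] at hq
    · rcases hq with rfl | rfl | rfl | rfl | rfl <;> simp
    · rcases hq with rfl | rfl | rfl | rfl | rfl <;> simp
    · rcases hq with rfl; simp
  | aC => simp only [trans, List.mem_cons, List.not_mem_nil, or_false] at hq; rcases hq with rfl | rfl <;> simp
  | a => simp only [trans, List.mem_cons, List.not_mem_nil, or_false] at hq; rcases hq with rfl | rfl <;> simp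
  | bC => simp only [trans, List.mem_cons, List.not_mem_nil, or_false] at hq; rcases hq with rfl; simp
  | b => simp only [trans, List.mem_cons, List.not_mem_nil, or_false] at hq; rcases hq with rfl; simp
  | dead => simp only [trans, List.mem_cons, List.not_mem_nil, or_false] at hq; rcases hq with rfl; simp

lemma chain_safe (s : St n) (hs : s ≠ .start) : s ∈ (chain n).Sf ((1/2)^(n+2)) := by
  refine (chain n).pr_until_eq_zero_of_closed {t : St n | t ≠ .start} _ _ ?_ ?_ s hs
  · intro u hu t ht h1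
    have h1' : t = (.start : St n) := h1
    subst h1'
    have : (chain n).P u (.start : St n) = 0 := listP_eq_zero (trans_ne_start n u hu)
    rw [this] at ht
    exact lt_irrefl _ ht
  · intro u hu h1
    exact h1 (chain_glob n u hu)

theorem chain_main : (chain n).Main 0 1 (1/2) (1/4) (1/8) (1/16) ((1/2)^(n+2)) (.start : St n) := by
  constructor
  · change (.start : St n) ∈ sL1 n
    simp [mL1, lab]
  · change prn n .start (sL1 n ∪ sB n) = _
    rw [chain_next]
    by_cases h1 : 0 < n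
    · simp [trans, mL1, mB, lab, h1]
    · simp [trans, mL1, mB, lab, h1]
  · change prn n .start (sL0 n ∪ sEn n) = _
    rw [chain_next]
    by_cases h1 : 0 < n
    · simp [trans, mL0, mEn, lab, h1]
    · simp [trans, mL0, mEn, lab, h1]
  · change pru n .start (sL0 n ∪ sL1 n) (sEn n) = _
    rw [chain_until n .start _ _ (by simp [mEn, lab]) (by simp [mL0, mL1, lab])]
    have h1 := yv_lev n n 0 (by simp)
    have z2 : pru n .a (sL0 n ∪ sL1 n) (sEn n) = 0 :=
      (chain n).pr_until_of_notMem _ _ _ (by change ¬ (_ ∈ sEn n); simp [mEn, lab]) (by change ¬ (_ ∈ (sL0 n ∪ sL1 n)); simp [mL0, mL1, lab])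
    have z5 : pru n .dead (sL0 n ∪ sL1 n) (sEn n) = 0 :=
      (chain n).pr_until_of_notMem _ _ _ (by change ¬ (_ ∈ sEn n); simp [mEn, lab]) (by change ¬ (_ ∈ (sL0 n ∪ sL1 n)); simp [mL0, mL1, lab])
    simp only [trans, List.map_cons, List.map_nil, List.sum_cons, List.sum_nil, h1, z2, z5]
    rw [pow_add]
    ring
  · change prn n .start (sA n) = _
    rw [chain_next]
    by_cases h1 : 0 < n
    · simp [trans, mA, lab, h1]
    · simp [trans, mA, lab, h1]
  · change prt n .start (sL0 n ∪ sL1 n ∪ sA n) (sB n) = _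
    have hd : Disjoint (sL0 n ∪ sL1 n ∪ sA n) (sB n) := Disjoint.sup_left (chain n).disj_L_B (chain n).disj_AB
    rw [chain_two n _ _ _ (by simp [mB, lab]) (by simp [mL0, mL1, lab]) hd, chain_next]
    by_cases h1 : 0 < n
    · have h2 := next_B_lev n 0 h1 (by simp)
      simp [trans, mA, mB, mL0, mL1, lab, h1, h2, next_a n]
      have h4 : ((2:ℝ) ^ (n+2))⁻¹ * (2 ^ (n+2))⁻¹ = (4 ^ n)⁻¹ / 16 := by
        rw [← mul_inv, ← mul_pow]
        norm_num
        rw [pow_add]
        norm_num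
        ring
      rw [h4]
      ring
    · have h3 : n = 0 := by omega
      subst h3
      simp [trans, mA, mB, mL0, mL1, lab, next_a 0]
      norm_num
  · let SS : Set (St n) := (chain n).Sf ((1/2)^(n+2))
    change prn n .start SS = 1
    have h1 : ∀ s : St n, s ≠ .start → s ∈ SS := chain_safe n
    rw [chain_next]
    have h2 := h1 (.lev 0) (by simp)
    have h3 := h1 .a (by simp)
    have h4 := h1 .dead (by simp)
    simp only [trans, List.map_cons, List.map_nil, List.sum_cons, List.sum_nil, if_pos h2, if_pos h3, if_pos h4]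
    ring

end chainFacts


/-- the point `r` of `[0,1]` -/
def pt (r : ℝ) (h0 : 0 ≤ r) (h1 : r ≤ 1) : unitInterval := ⟨r, h0, h1⟩

noncomputable def theFormula : ParamPCTL :=
  mainF (some (pt 0 (by norm_num) (by norm_num))) (some (pt 1 (by norm_num) (by norm_num)))
    (some (pt (1/2) (by norm_num) (by norm_num))) (some (pt (1/4) (by norm_num) (by norm_num)))
    (some (pt (1/8) (by norm_num) (by norm_num))) (some (pt (1/16) (by norm_num) (by norm_num))) none

lemma mem_sat_theFormula (M : MarkovChain) (κ : unitInterval) (s : M.S) :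
    s ∈ M.sat (theFormula.subst κ) ↔ M.Main 0 1 (1/2) (1/4) (1/8) (1/16) κ s := by
  unfold theFormula ParamPCTL.subst
  rw [map_mainF]
  exact M.mem_sat_main _ _ _ _ _ _ _ s

/-- **Main theorem.** There is a parameterized PCTL formula `φ` such that for every `n` there is
`κ ∈ (0,1)` for which `φ(κ)` has a finite model, while every model of `φ(κ)` has at least `n`
states. -/
theorem exists_large_models :
    ∃ φ : ParamPCTL, ∀ n : ℕ, ∃ κ : unitInterval, 0 < (κ : ℝ) ∧ (κ : ℝ) < 1 ∧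
      (∃ M : MarkovChain, Finite M.S ∧ M.IsModel (φ.subst κ)) ∧
      (∀ M : MarkovChain, M.IsModel (φ.subst κ) → (n : ℕ∞) ≤ ENat.card M.S) := by
  refine ⟨theFormula, fun n => ?_⟩
  have h0 : (0:ℝ) < (1/2)^(n+2) := by positivity
  have h1 : (1/2 : ℝ)^(n+2) ≤ 1/4 := half_pow_le n
  refine ⟨⟨(1/2)^(n+2), h0.le, by linarith⟩, h0, by simp only; linarith, ?_, ?_⟩
  · refine ⟨chain n, ?_, ⟨(.start : St n), ?_⟩⟩
    · exact (inferInstance : Finite (St n))
    · exact (mem_sat_theFormula (chain n) _ _).2 (chain_main n)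
  · rintro M ⟨s, hs⟩
    rw [mem_sat_theFormula] at hs
    exact M.card_ge hs

end Pool.Agent.LibPCTL
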